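import Pool.Agent.L0h24.Uni.Family
import Pool.Agent.L0h24.Gev.Main

set_option autoImplicit false

/-! The inequality for the universal family and the inequality for all families of tubes. -/

open MeasureTheory Set Metric Topology
open scoped ENNReal NNReal

namespace Pool.Agent.L0h24.Uni

open Pool.Agent.H810R3.Tub (Vec Space tube dir Fe tube_closed tube_eq)
open Pool.Agent.Y254.EL (Pt tb tb_meas Sep LF lint_zoom lint_aniso)
open Pool.Agent.Y254 (mult mult_meas mult_le mult_zero_or)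

variable {d : ℕ}

theorem LF_mono {R R' q C : ℝ} (hR : R ≤ R') (hq : 0 ≤ q) (h : LF d R' q C) : LF d R q C := by
  intro δ hδ hδ1 ι _ b P v hv hs
  refine (lintegral_mono fun x => ?_).trans (h δ hδ hδ1 b P v hv hs)
  apply ENNReal.rpow_le_rpow _ hq
  unfold mult
  refine Finset.sum_le_sum fun i _ => ?_
  by_cases hx : x ∈ tb R (R * δ) (b i) (P i) (v i)
  · have hx' : x ∈ tb R' (R' * δ) (b i) (P i) (v i) :=
      ⟨hx.1.trans hR, hx.2.trans (mul_le_mul_of_nonneg_right hR hδ.le)⟩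
    rw [indicator_of_mem hx, indicator_of_mem hx']
  · rw [indicator_of_notMem hx]
    exact zero_le

/-- The inequality for one exponent from the inequalities for rational exponents above it. -/
theorem LF_of_rat {R q C : ℝ} (hq : 0 < q) (hC : 0 ≤ C)
    (h : ∀ p : ℚ, q ≤ (p : ℝ) → LF d R p C) : LF d R q (2 * C) := by
  intro δ hδ hδ1 ι _ b P v hv hs
  set N : ℝ := (Fintype.card ι : ℝ) with hN
  rcases isEmpty_or_nonempty ι with hemp | hne
  · have h1 : ∀ x, mult (fun i => tb R (R * δ) (b i) (P i) (v i)) x ^ q = 0 := by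
      intro x
      unfold mult
      rw [Finset.univ_eq_empty, Finset.sum_empty, ENNReal.zero_rpow_of_pos hq]
    simp only [h1, lintegral_zero]
    exact zero_le
  have hN1 : (1 : ℝ) ≤ N := by
    have := Fintype.card_pos (α := ι)
    rw [hN]
    exact_mod_cast this
  have hN0 : 0 < N := by linarith
  have hlog : 0 < Real.log (N + 1) := Real.log_pos (by linarith)
  have hlog2 : 0 < Real.log 2 := Real.log_pos (by norm_num)
  obtain ⟨p, hp1, hp2⟩ := exists_rat_btwn (show q < q + Real.log 2 / Real.log (N + 1) by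
    have : 0 < Real.log 2 / Real.log (N + 1) := by positivity
    linarith)
  refine (lintegral_mono fun x => ?_).trans ((h p hp1.le δ hδ hδ1 b P v hv hs).trans ?_)
  · dsimp only
    rcases mult_zero_or (fun i => tb R (R * δ) (b i) (P i) (v i)) x with h1 | h1
    · rw [h1, ENNReal.zero_rpow_of_pos hq]
      exact zero_le
    · exact ENNReal.rpow_le_rpow_of_exponent_le h1 hp1.le
  · apply ENNReal.ofReal_le_ofReal
    have e1 : N ^ ((p : ℝ) - 1 / (d : ℝ)) = N ^ ((p : ℝ) - q) * N ^ (q - 1 / (d : ℝ)) := by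
      rw [← Real.rpow_add hN0]
      congr 1
      ring
    have e2 : N ^ ((p : ℝ) - q) ≤ 2 := by
      have h2 : (p : ℝ) - q ≤ Real.log 2 / Real.log (N + 1) := by linarith
      calc N ^ ((p : ℝ) - q) ≤ (N + 1) ^ ((p : ℝ) - q) :=
            Real.rpow_le_rpow hN0.le (by linarith) (by linarith)
        _ ≤ (N + 1) ^ (Real.log 2 / Real.log (N + 1)) :=
            Real.rpow_le_rpow_of_exponent_le (by linarith) h2
        _ = 2 := by
            rw [Real.rpow_def_of_pos (by linarith), mul_div_cancel₀ _ hlog.ne',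
              Real.exp_log (by norm_num)]
    rw [e1]
    have h3 : 0 ≤ δ ^ d * N ^ (q - 1 / (d : ℝ)) := by positivity
    calc C * (δ ^ d * (N ^ ((p : ℝ) - q) * N ^ (q - 1 / (d : ℝ))))
        = C * (N ^ ((p : ℝ) - q) * (δ ^ d * N ^ (q - 1 / (d : ℝ)))) := by ring
      _ ≤ C * (2 * (δ ^ d * N ^ (q - 1 / (d : ℝ)))) := by gcongr
      _ = _ := by ring

/-- The integral at a larger exponent. -/
theorem val_le (K : Cfg d) {q p X : ℝ} (hq : 0 < q) (hqp : q ≤ p)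
    (h : K.val q ≤ ENNReal.ofReal (X * (K.δ ^ d * (Fintype.card K.ι : ℝ) ^ (q - 1 / (d : ℝ))))) :
    K.val p ≤ ENNReal.ofReal (X * (K.δ ^ d * (Fintype.card K.ι : ℝ) ^ (p - 1 / (d : ℝ)))) := by
  have hp : 0 < p := by linarith
  set N : ℝ := (Fintype.card K.ι : ℝ) with hN
  rcases isEmpty_or_nonempty K.ι with hemp | hne
  · have h1 : K.val p = 0 := by
      have h2 : ∀ x, mult (fun i => tb K.R (K.R * K.δ) (K.b i) (K.P i) (K.v i)) x ^ p = 0 := by
        intro x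
        unfold mult
        rw [Finset.univ_eq_empty, Finset.sum_empty, ENNReal.zero_rpow_of_pos hp]
      unfold Cfg.val
      simp only [h2, lintegral_zero]
    rw [h1]
    exact zero_le
  have hN1 : (1 : ℝ) ≤ N := by
    have := Fintype.card_pos (α := K.ι)
    rw [hN]
    exact_mod_cast this
  have hN0 : 0 < N := by linarith
  have h1 : K.val p ≤ ENNReal.ofReal (N ^ (p - q)) * K.val q := by
    unfold Cfg.val
    have hm : Measurable fun z => mult (fun i => tb K.R (K.R * K.δ) (K.b i) (K.P i) (K.v i)) z ^ q :=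
      (mult_meas fun i => tb_meas _ _ _ _ _).pow_const q
    rw [← lintegral_const_mul _ hm]
    refine lintegral_mono fun x => ?_
    set F := mult (fun i => tb K.R (K.R * K.δ) (K.b i) (K.P i) (K.v i)) x with hF
    have h2 : F ≤ ENNReal.ofReal N := by
      rw [hN, ENNReal.ofReal_natCast]
      exact mult_le _ x
    calc F ^ p = F ^ ((p - q) + q) := by rw [sub_add_cancel]
      _ = F ^ (p - q) * F ^ q := ENNReal.rpow_add_of_nonneg _ _ (by linarith) hq.le
      _ ≤ ENNReal.ofReal (N ^ (p - q)) * F ^ q := by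
          gcongr
          rw [← ENNReal.ofReal_rpow_of_pos hN0]
          exact ENNReal.rpow_le_rpow h2 (by linarith)
  refine h1.trans ((mul_le_mul_right h _).trans (le_of_eq ?_))
  rw [← ENNReal.ofReal_mul (by positivity)]
  congr 1
  have e1 : N ^ (p - 1 / (d : ℝ)) = N ^ (p - q) * N ^ (q - 1 / (d : ℝ)) := by
    rw [← Real.rpow_add hN0]
    congr 1
    ring
  rw [e1]
  ring

/-- **The universal family in integrated form.** -/
theorem universal (hd : 1 ≤ d) {ε : ℝ} (hε : 0 < ε) :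
    ∃ A : Vec d → Vec d, ContDiff ℝ (⊤ : ℕ∞) A ∧
      (∀ (k : ℕ) (x : Vec d), ‖iteratedFDeriv ℝ k A x‖ ≤ ε * (k.factorial : ℝ) ^ 3) ∧
      (∀ x : Vec d, 1 ≤ ‖x‖ → A x = 0) ∧
      ∀ (q X : ℝ), 0 < q → 0 ≤ X → NL A q X → ∀ R : ℝ, 1 ≤ R → ∃ C : ℝ, 0 ≤ C ∧ LF d R q C := by
  obtain ⟨e, he⟩ := exists_surjective_nat (ℚ × ℕ × ℕ)
  have hc : ∀ n : ℕ, ∃ K : Cfg d, K.R = ((e n).2.2 : ℝ) + 1 ∧
      (¬ LF d (((e n).2.2 : ℝ) + 1) ((e n).1 : ℝ) ((e n).2.1 : ℝ) →
        ENNReal.ofReal (((e n).2.1 : ℝ) * (K.δ ^ d * (Fintype.card K.ι : ℝ) ^ (((e n).1 : ℝ) - 1 / (d : ℝ)))) <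
        K.val ((e n).1 : ℝ)) := fun n => exists_cfg d _ _ _ (by
    have : (0 : ℝ) ≤ ((e n).2.2 : ℝ) := Nat.cast_nonneg _
    linarith)
  choose K hKR hK using hc
  obtain ⟨A, hA1, hA2, hA3, hA4⟩ := exists_family hd hε K
  refine ⟨A, hA1, hA2, hA3, ?_⟩
  intro q X hq hX hNL R hR
  obtain ⟨k, hk⟩ := exists_nat_ge R
  set R' : ℝ := (k : ℝ) + 1 with hR'
  have hRR' : R ≤ R' := by linarith
  have hR'0 : 0 < R' := by linarith
  set X' : ℝ := X * ((8 * d * R') ^ d * (64 * d * R')) with hX'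
  have hX'0 : 0 ≤ X' := by positivity
  obtain ⟨C, hC⟩ := exists_nat_ge X'
  have hC0 : (0 : ℝ) ≤ C := Nat.cast_nonneg C
  refine ⟨2 * C, by positivity, LF_mono hRR' hq.le (LF_of_rat hq hC0 ?_)⟩
  intro p hp
  by_contra hcon
  obtain ⟨n, hn⟩ := he (p, C, k)
  have h1 := hK n
  rw [hn] at h1
  have h2 := h1 hcon
  have h3 := hA4 q X hq hNL n
  have hRn : (K n).R = R' := by rw [hKR n, hn]
  rw [hRn] at h3
  have h4 := val_le (K n) hq hp h3
  have h5 : ENNReal.ofReal (X' * ((K n).δ ^ d * (Fintype.card (K n).ι : ℝ) ^ ((p : ℝ) - 1 / (d : ℝ)))) ≤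
      ENNReal.ofReal ((C : ℝ) * ((K n).δ ^ d * (Fintype.card (K n).ι : ℝ) ^ ((p : ℝ) - 1 / (d : ℝ)))) := by
    apply ENNReal.ofReal_le_ofReal
    have := (K n).hδ
    gcongr
  exact absurd (h4.trans h5) (not_le.2 h2)

/-- The norm of a sum of indicators. -/
theorem eLp_mult {Y : Type*} [MeasurableSpace Y] (μ : Measure Y) {ι : Type} [Fintype ι]
    (T : ι → Set Y) {q : ℝ} (hq : 0 < q) :
    eLpNorm (fun y => ∑ i, (T i).indicator (fun _ => (1 : ℝ)) y) (ENNReal.ofReal q) μ =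
      (∫⁻ y, (∑ i, (T i).indicator (fun _ => (1 : ℝ≥0∞)) y) ^ q ∂μ) ^ (1 / q) := by
  have hp0 : ENNReal.ofReal q ≠ 0 := by
    rw [ne_eq, ENNReal.ofReal_eq_zero, not_le]
    exact hq
  rw [eLpNorm_eq_lintegral_rpow_enorm_toReal hp0 ENNReal.ofReal_ne_top, ENNReal.toReal_ofReal hq.le]
  congr 1
  refine lintegral_congr fun y => ?_
  congr 1
  have h0 : ∀ i, 0 ≤ (T i).indicator (fun _ => (1 : ℝ)) y :=
    fun i => indicator_nonneg (fun _ _ => zero_le_one) _
  rw [Real.enorm_eq_ofReal (Finset.sum_nonneg fun i _ => h0 i),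
    ENNReal.ofReal_sum_of_nonneg (fun i _ => h0 i)]
  refine Finset.sum_congr rfl fun i _ => ?_
  by_cases hm : y ∈ T i
  · rw [indicator_of_mem hm, indicator_of_mem hm, ENNReal.ofReal_one]
  · rw [indicator_of_notMem hm, indicator_of_notMem hm, ENNReal.ofReal_zero]

/-- Norms and integrals of powers. -/
theorem conv (hd : 1 ≤ d) {I : ℝ≥0∞} {C δ N q : ℝ} (hq : 0 < q) (hC : 0 ≤ C) (hδ : 0 < δ)
    (hN : 0 ≤ N) : I ^ (1 / q) ≤ ENNReal.ofReal (C * (δ ^ ((d : ℝ) / q) * N ^ (1 - 1 / (q * d)))) ↔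
      I ≤ ENNReal.ofReal (C ^ q * (δ ^ d * N ^ (q - 1 / (d : ℝ)))) := by
  have hd0 : (0 : ℝ) < d := by exact_mod_cast hd
  have e : ENNReal.ofReal (C * (δ ^ ((d : ℝ) / q) * N ^ (1 - 1 / (q * d)))) =
      ENNReal.ofReal (C ^ q * (δ ^ d * N ^ (q - 1 / (d : ℝ)))) ^ (1 / q) := by
    rw [ENNReal.ofReal_rpow_of_nonneg (by positivity) (by positivity)]
    congr 1
    rw [Real.mul_rpow (by positivity) (by positivity), Real.mul_rpow (by positivity) (by positivity),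
      ← Real.rpow_mul hC, ← Real.rpow_natCast δ d, ← Real.rpow_mul hδ.le, ← Real.rpow_mul hN]
    have f1 : q * (1 / q) = 1 := by field_simp
    have f2 : (d : ℝ) * (1 / q) = d / q := by ring
    have f3 : (q - 1 / (d : ℝ)) * (1 / q) = 1 - 1 / (q * d) := by field_simp
    rw [f1, f2, f3, Real.rpow_one]
  rw [e]
  exact ENNReal.rpow_le_rpow_iff (by positivity)

theorem exists_iso (d : ℕ) : ∃ Φ : Space d ≃ₗᵢ[ℝ] EuclideanSpace ℝ (Fin (d + 1)),
    MeasurePreserving Φ := by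
  have hfin : Module.finrank ℝ (Space d) = d + 1 := by
    have h1 : Module.finrank ℝ (Space d) = Module.finrank ℝ (Vec d × ℝ) :=
      LinearEquiv.finrank_eq (WithLp.linearEquiv 2 ℝ (Vec d × ℝ))
    rw [h1, Module.finrank_prod, Module.finrank_self, finrank_euclideanSpace_fin]
  let b := (stdOrthonormalBasis ℝ (Space d)).reindex (finCongr hfin)
  exact ⟨b.repr, b.measurePreserving_repr⟩

/-- The inequality of Q1 in `ℝ^(d+1)` at the exponent `q`. -/
def Q1At (d : ℕ) (q : ℝ) : Prop :=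
  ∃ C : ℝ, 0 < C ∧ ∀ δ : ℝ, 0 < δ → δ < 1 → ∀ (ι : Type) [Fintype ι] (a e : ι → Space d),
    (∀ i, ‖e i‖ = 1) → (∀ i j, i ≠ j → δ ≤ ‖e i - e j‖) →
    eLpNorm (fun y : Space d => ∑ i, (tube δ (e i) (a i)).indicator (fun _ => (1 : ℝ)) y)
      (ENNReal.ofReal q) volume ≤
      ENNReal.ofReal (C * (δ ^ ((d : ℝ) / q) * (Fintype.card ι : ℝ) ^ (1 - 1 / (q * d))))

/-- The inequality for the tubes of the family `A` at scale `δ`. -/
def FB (A : Vec d → Vec d) (q δ X : ℝ) : Prop :=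
  ∀ (ι : Type) [Fintype ι] (v : ι → Vec d), (∀ i, ‖v i‖ ≤ 1) →
    (∀ i j, i ≠ j → δ ≤ ‖dir (v i) - dir (v j)‖) →
    eLpNorm (fun y : Space d => ∑ i,
        (tube δ (dir (v i)) (WithLp.toLp 2 (A (v i), (0 : ℝ)))).indicator (fun _ => (1 : ℝ)) y)
      (ENNReal.ofReal q) volume ≤
      ENNReal.ofReal (X * (δ ^ ((d : ℝ) / q) * (Fintype.card ι : ℝ) ^ (1 - 1 / (q * d))))

theorem Q1At_of_LF (hd : 1 ≤ d) {q : ℝ} (hq : 1 + 1 / (d : ℝ) ≤ q)
    (h : ∀ R : ℝ, 1 ≤ R → ∃ C : ℝ, 0 ≤ C ∧ LF d R q C) : Q1At d q := by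
  have hd0 : (0 : ℝ) < d := by exact_mod_cast hd
  have hq0 : 0 < q := by
    have : 0 < 1 / (d : ℝ) := by positivity
    linarith
  obtain ⟨C, hC, hT⟩ := Pool.Agent.Y244.HM.tubeP hd hq (Pool.Agent.Y254.EL.allwP_of_LF hd hq h)
  obtain ⟨Φ, hΦ⟩ := exists_iso d
  refine ⟨C ^ (1 / q), by positivity, ?_⟩
  intro δ hδ hδ1 ι _ a e he hsep
  rw [eLp_mult volume (fun i => tube δ (e i) (a i)) hq0, conv hd hq0 (by positivity) hδ
    (Nat.cast_nonneg _), ← Real.rpow_mul hC.le, one_div, inv_mul_cancel₀ hq0.ne', Real.rpow_one]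
  have h1 := hT δ hδ hδ1.le ι (fun i => Φ (a i)) (fun i => Φ (e i))
    (fun i => by rw [LinearIsometryEquiv.norm_map]; exact he i)
    (fun i j hij => by rw [← map_sub, LinearIsometryEquiv.norm_map]; exact hsep i j hij)
  have hm : Measurable fun x : EuclideanSpace ℝ (Fin (d + 1)) =>
      (∑ i, (Pool.Agent.W46.KK.tube δ (Φ (a i)) (Φ (e i))).indicator (fun _ => (1 : ℝ≥0∞)) x) ^ q := by
    apply Measurable.pow_const
    apply Finset.measurable_sum
    intro i _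
    apply measurable_const.indicator
    apply IsClosed.measurableSet
    have c1 : Continuous (fun y : EuclideanSpace ℝ (Fin (d + 1)) =>
        |inner ℝ (y - Φ (a i)) (Φ (e i))|) := by fun_prop
    have c2 : Continuous (fun y : EuclideanSpace ℝ (Fin (d + 1)) =>
        ‖(y - Φ (a i)) - (inner ℝ (y - Φ (a i)) (Φ (e i)) : ℝ) • Φ (e i)‖) := by fun_prop
    exact (isClosed_le c1 continuous_const).inter (isClosed_le c2 continuous_const)
  rw [← hΦ.lintegral_comp hm] at h1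
  have h2 : ∀ y : Space d, (∑ i, (Pool.Agent.W46.KK.tube δ (Φ (a i)) (Φ (e i))).indicator
      (fun _ => (1 : ℝ≥0∞)) (Φ y)) = ∑ i, (tube δ (e i) (a i)).indicator (fun _ => (1 : ℝ≥0∞)) y := by
    intro y
    refine Finset.sum_congr rfl fun i _ => ?_
    have h3 : Φ y ∈ Pool.Agent.W46.KK.tube δ (Φ (a i)) (Φ (e i)) ↔ y ∈ tube δ (e i) (a i) := by
      have i1 : inner ℝ (Φ y - Φ (a i)) (Φ (e i)) = inner ℝ (y - a i) (e i) := by
        rw [← map_sub, LinearIsometryEquiv.inner_map_map]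
      have i2 : ‖(Φ y - Φ (a i)) - (inner ℝ (y - a i) (e i) : ℝ) • Φ (e i)‖ =
          ‖(y - a i) - (inner ℝ (y - a i) (e i) : ℝ) • e i‖ := by
        rw [← map_sub, ← map_smul, ← map_sub, LinearIsometryEquiv.norm_map]
      unfold Pool.Agent.W46.KK.tube tube
      simp only [Set.mem_ofPred_eq]
      rw [i1, i2]
    by_cases hy : y ∈ tube δ (e i) (a i)
    · rw [indicator_of_mem (h3.2 hy), indicator_of_mem hy]
    · rw [indicator_of_notMem (fun hh => hy (h3.1 hh)), indicator_of_notMem hy]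
  simp only [h2] at h1
  have e1 : C * δ ^ (d : ℝ) * (Fintype.card ι : ℝ) ^ (q - 1 / (d : ℝ)) =
      C * (δ ^ d * (Fintype.card ι : ℝ) ^ (q - 1 / (d : ℝ))) := by
    rw [Real.rpow_natCast]; ring
  rw [e1] at h1
  exact h1

theorem NL_of_FB (hd : 1 ≤ d) {A : Vec d → Vec d} {q C : ℝ} (hq : 0 < q) (hC : 0 ≤ C)
    (h : ∀ δ : ℝ, 0 < δ → δ < 1 → FB A q δ C) : NL A q (C ^ q) := by
  intro δ hδ hδ1 ι _ v hv hsep
  have h1 := h δ hδ hδ1 ι v hv hsep
  rw [eLp_mult volume (fun i => tube δ (dir (v i)) (WithLp.toLp 2 (A (v i), (0 : ℝ)))) hq,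
    conv hd hq hC hδ (Nat.cast_nonneg _)] at h1
  refine le_trans (le_of_eq ?_) h1
  have hFm : Measurable fun y : Space d => (∑ i,
      (tube δ (dir (v i)) (WithLp.toLp 2 (A (v i), (0 : ℝ)))).indicator (fun _ => (1 : ℝ≥0∞)) y) ^ q := by
    apply Measurable.pow_const
    apply Finset.measurable_sum
    intro i _
    exact measurable_const.indicator (tube_closed _ _ _).measurableSet
  rw [← (WithLp.volume_preserving_toLp (Vec d) ℝ).lintegral_comp hFm]
  have hm2 : Measurable fun p : Vec d × ℝ => (∑ i,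
      (tube δ (dir (v i)) (WithLp.toLp 2 (A (v i), (0 : ℝ)))).indicator (fun _ => (1 : ℝ≥0∞))
        (WithLp.toLp 2 p)) ^ q := hFm.comp (WithLp.volume_preserving_toLp (Vec d) ℝ).measurable
  rw [Measure.volume_eq_prod, lintegral_prod_symm _ hm2.aemeasurable]
  refine lintegral_congr fun t => lintegral_congr fun x => ?_
  unfold Fe
  simp only [zero_smul, add_zero]

/-- **A universal Gevrey family of lines.** -/
theorem main (hd : 1 ≤ d) {ε : ℝ} (hε : 0 < ε) :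
    ∃ A : Vec d → Vec d, ContDiff ℝ (⊤ : ℕ∞) A ∧
      (∀ (k : ℕ) (x : Vec d), ‖iteratedFDeriv ℝ k A x‖ ≤ ε * (k.factorial : ℝ) ^ 3) ∧
      (∀ x : Vec d, 1 ≤ ‖x‖ → A x = 0) ∧
      ∀ q : ℝ, ((d : ℝ) + 1) / d < q →
        (∃ C : ℝ, 0 < C ∧ ∀ δ : ℝ, 0 < δ → δ < 1 →
          FB A q δ (C * (1 + Real.log (1 / δ)) ^ ((d : ℝ) ^ 2 * (1 - 1 / q) + 2 / q))) ∧
        ((∃ C : ℝ, 0 < C ∧ ∀ δ : ℝ, 0 < δ → δ < 1 → FB A q δ C) ↔ Q1At d q) := by
  obtain ⟨A, hA1, hA2, hA3, hA4⟩ := universal hd hε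
  have hd0 : (0 : ℝ) < d := by exact_mod_cast hd
  refine ⟨A, hA1, hA2, hA3, ?_⟩
  intro q hq
  have hq0 : 0 < q := lt_trans (by positivity) hq
  have hq1 : 1 + 1 / (d : ℝ) ≤ q := by
    have : ((d : ℝ) + 1) / d = 1 + 1 / d := by field_simp
    linarith
  constructor
  · obtain ⟨C, hC, h⟩ := Pool.Agent.L0h24.Gev.gevrey d hd q hq
    refine ⟨C * (1 + ε) ^ d, by positivity, ?_⟩
    intro δ hδ hδ1 ι _ v hv hsep
    have hεc : ((Real.toNNReal ε : ℝ≥0) : ℝ) = ε := Real.coe_toNNReal ε hε.le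
    have h1 := h 3 (Real.toNNReal ε) 0 0 1 A (by norm_num) le_rfl hA1 (by
      intro j _ x _
      have e : ((j.factorial : ℝ)) ^ (3 : ℝ) = (j.factorial : ℝ) ^ 3 := by
        rw [← Real.rpow_natCast]
        norm_num
      rw [e, one_pow, mul_one, hεc]
      exact hA2 j x) δ hδ hδ1 ι v (fun i => A (v i)) (fun _ => 0) hv (by simp) (by simp) hsep
    have e1 : ∀ i, (WithLp.toLp 2 (A (v i) + (0 : ℝ) • v i, (0 : ℝ)) : Space d) =
        WithLp.toLp 2 (A (v i), (0 : ℝ)) := by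
      intro i
      rw [zero_smul, add_zero]
    simp only [e1] at h1
    refine h1.trans (ENNReal.ofReal_le_ofReal (le_of_eq ?_))
    rw [Real.one_rpow]
    have e2 : ((d : ℝ) ^ 2 * (1 - 1 / q) + (3 - 1) / q) = (d : ℝ) ^ 2 * (1 - 1 / q) + 2 / q := by
      norm_num
    rw [e2, hεc, NNReal.coe_zero, add_zero, add_zero]
    ring
  · constructor
    · rintro ⟨C, hC, h⟩
      exact Q1At_of_LF hd hq1 (hA4 q (C ^ q) hq0 (by positivity) (NL_of_FB hd hq0 hC.le h))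
    · rintro ⟨C, hC, h⟩
      refine ⟨C, hC, ?_⟩
      intro δ hδ hδ1 ι _ v hv hsep
      refine h δ hδ hδ1 ι (fun i => WithLp.toLp 2 (A (v i), (0 : ℝ))) (fun i => dir (v i)) ?_ hsep
      intro i
      unfold Pool.Agent.H810R3.Tub.dir
      have hw : 0 < 1 + ‖v i‖ ^ 2 := by positivity
      rw [norm_smul, norm_inv, Real.norm_eq_abs, abs_of_pos (Real.sqrt_pos.2 hw),
        WithLp.prod_norm_eq_of_L2]
      show (√(1 + ‖v i‖ ^ 2))⁻¹ * √(‖v i‖ ^ 2 + ‖(1 : ℝ)‖ ^ 2) = 1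
      rw [norm_one, one_pow, add_comm (‖v i‖ ^ 2) 1]
      exact inv_mul_cancel₀ (Real.sqrt_pos.2 hw).ne'

end Pool.Agent.L0h24.Uni
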