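import Pool.Agent.L0h24.Uni.Calc

set_option autoImplicit false

/-! A bump function with Gevrey bounds of order two. -/

open Set MeasureTheory

namespace Pool.Agent.L0h24.Uni

/-- `x⁻ʲ exp(-1/x)` -/
noncomputable def Fj (j : ℕ) (x : ℝ) : ℝ := (x⁻¹) ^ j * expNegInvGlue x

theorem Fj_le (j : ℕ) (x : ℝ) : |Fj j x| ≤ j.factorial := by
  unfold Fj
  rcases le_or_gt x 0 with h | h
  · rw [expNegInvGlue.zero_of_nonpos h, mul_zero, abs_zero]
    positivity
  · have hy : 0 < x⁻¹ := inv_pos.2 h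
    have hf : (0 : ℝ) < j.factorial := by exact_mod_cast Nat.factorial_pos j
    have h1 := Real.pow_div_factorial_le_exp x⁻¹ hy.le j
    rw [div_le_iff₀ hf] at h1
    have h2 : expNegInvGlue x = Real.exp (-x⁻¹) := by
      unfold expNegInvGlue
      rw [if_neg (not_le.2 h)]
    rw [h2, abs_mul, abs_of_pos (by positivity), abs_of_pos (Real.exp_pos _), Real.exp_neg]
    have h3 := Real.exp_pos x⁻¹
    rw [← div_eq_mul_inv, div_le_iff₀ h3]
    linarith

theorem Fj_smooth (j : ℕ) : ContDiff ℝ (⊤ : ℕ∞) (Fj j) := by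
  have h := expNegInvGlue.contDiff_polynomial_eval_inv_mul (n := ⊤) (Polynomial.X ^ j)
  simp only [Polynomial.eval_pow, Polynomial.eval_X] at h
  exact h

theorem Fj_deriv (j : ℕ) : deriv (Fj j) = fun x => Fj (j + 2) x - j * Fj (j + 1) x := by
  funext x
  have h := expNegInvGlue.hasDerivAt_polynomial_eval_inv_mul (Polynomial.X ^ j) x
  have h1 : (fun x : ℝ => Polynomial.eval x⁻¹ (Polynomial.X ^ j) * expNegInvGlue x) = Fj j := by
    funext y
    simp only [Polynomial.eval_pow, Polynomial.eval_X]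
    rfl
  rw [h1] at h
  rw [h.deriv]
  rcases Nat.eq_zero_or_pos j with h0 | h0
  · subst h0
    simp [Fj]
  · obtain ⟨p, rfl⟩ : ∃ p, j = p + 1 := ⟨j - 1, by omega⟩
    simp only [Polynomial.derivative_X_pow, Polynomial.eval_mul, Polynomial.eval_pow,
      Polynomial.eval_X, Polynomial.eval_sub, Polynomial.eval_C, Fj, Nat.add_sub_cancel]
    ring

theorem Fj_iter (k : ℕ) : ∀ (j : ℕ) (x : ℝ),
    |iteratedDeriv k (Fj j) x| ≤ 2 ^ k * ((j + 2 * k).factorial : ℝ) := by
  induction k with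
  | zero =>
    intro j x
    rw [iteratedDeriv_zero, pow_zero, one_mul, mul_zero, add_zero]
    exact Fj_le j x
  | succ k ih =>
    intro j x
    rw [iteratedDeriv_succ', Fj_deriv]
    have hk : ((k : ℕ) : WithTop ℕ∞) ≤ ((⊤ : ℕ∞) : WithTop ℕ∞) := by exact_mod_cast le_top
    have h1 : iteratedDeriv k (fun x => Fj (j + 2) x - j * Fj (j + 1) x) x =
        iteratedDeriv k (Fj (j + 2)) x - j * iteratedDeriv k (Fj (j + 1)) x := by
      rw [iteratedDeriv_fun_sub (((Fj_smooth (j + 2)).of_le hk).contDiffAt)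
        ((contDiff_const.mul ((Fj_smooth (j + 1)).of_le hk)).contDiffAt),
        iteratedDeriv_const_mul_field]
    rw [h1]
    have h2 := ih (j + 2) x
    have h3 := ih (j + 1) x
    have e1 : j + 2 + 2 * k = (j + 1 + 2 * k) + 1 := by ring
    have e2 : j + 2 * (k + 1) = (j + 1 + 2 * k) + 1 := by ring
    rw [e1, Nat.factorial_succ] at h2
    rw [e2, Nat.factorial_succ]
    set f : ℝ := ((j + 1 + 2 * k).factorial : ℝ) with hf
    have hf0 : 0 ≤ f := by positivity
    have hj0 : (0 : ℝ) ≤ j := Nat.cast_nonneg j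
    have hk0 : (0 : ℝ) ≤ k := Nat.cast_nonneg k
    push_cast at h2 h3 ⊢
    rw [← hf] at h2 ⊢
    calc |iteratedDeriv k (Fj (j + 2)) x - j * iteratedDeriv k (Fj (j + 1)) x|
        ≤ |iteratedDeriv k (Fj (j + 2)) x| + |j * iteratedDeriv k (Fj (j + 1)) x| := abs_sub _ _
      _ ≤ 2 ^ k * (((j : ℝ) + 1 + 2 * k + 1) * f) + j * (2 ^ k * f) := by
          rw [abs_mul, abs_of_nonneg hj0]
          exact add_le_add h2 (mul_le_mul_of_nonneg_left h3 hj0)
      _ ≤ 2 ^ (k + 1) * (((j : ℝ) + 1 + 2 * k + 1) * f) := by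
          rw [pow_succ]
          have : (0 : ℝ) ≤ 2 ^ k * f := by positivity
          nlinarith

theorem two_mul_factorial_le (k : ℕ) : ((2 * k).factorial : ℝ) ≤ 4 ^ k * (k.factorial : ℝ) ^ 2 := by
  have h1 := Nat.choose_mul_factorial_mul_factorial (show k ≤ 2 * k by omega)
  have h2 : (2 * k).choose k ≤ 2 ^ (2 * k) := Nat.choose_le_two_pow _ _
  have h3 : 2 * k - k = k := by omega
  rw [h3] at h1
  have h4 : ((2 * k).factorial : ℝ) = ((2 * k).choose k : ℝ) * k.factorial * k.factorial := by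
    exact_mod_cast h1.symm
  rw [h4]
  have h5 : ((2 * k).choose k : ℝ) ≤ 4 ^ k := by
    have : ((2 * k).choose k : ℝ) ≤ 2 ^ (2 * k) := by exact_mod_cast h2
    rw [pow_mul] at this
    norm_num at this
    exact this
  have h6 : (0 : ℝ) ≤ (k.factorial : ℝ) ^ 2 := by positivity
  nlinarith

theorem glue_GB : GB (univ : Set ℝ) expNegInvGlue := by
  refine ⟨expNegInvGlue.contDiff, 1, 8, zero_le_one, by norm_num, ?_⟩
  intro k x _
  rw [norm_iteratedFDeriv_eq_norm_iteratedDeriv, Real.norm_eq_abs]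
  have h := Fj_iter k 0 x
  have e : Fj 0 = expNegInvGlue := by
    funext y
    simp [Fj]
  rw [e, zero_add] at h
  have h2 := two_mul_factorial_le k
  calc _ ≤ 2 ^ k * ((2 * k).factorial : ℝ) := h
    _ ≤ 2 ^ k * (4 ^ k * (k.factorial : ℝ) ^ 2) := by gcongr
    _ = 1 * 8 ^ k * (k.factorial : ℝ) ^ 2 := by
        rw [← mul_assoc, ← mul_pow]
        norm_num

/-- A nonnegative function supported in `[0, 1]`. -/
noncomputable def hf (x : ℝ) : ℝ := expNegInvGlue x * expNegInvGlue (1 - x)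

theorem hf_GB : GB (univ : Set ℝ) hf := by
  refine glue_GB.mul ?_
  have h := glue_GB.comp_affine (t := (univ : Set ℝ)) (-ContinuousLinearMap.id ℝ ℝ) 1 (fun x _ => mem_univ _)
  have e : (fun x : ℝ => expNegInvGlue (((-ContinuousLinearMap.id ℝ ℝ : ℝ →L[ℝ] ℝ) x) + 1)) =
      fun x => expNegInvGlue (1 - x) := by
    funext x
    congr 1
    simp
    ring
  rw [e] at h
  exact h

theorem hf_cont : Continuous hf := hf_GB.1.continuous

theorem hf_nonneg (x : ℝ) : 0 ≤ hf x := mul_nonneg (expNegInvGlue.nonneg _) (expNegInvGlue.nonneg _)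

theorem hf_zero {x : ℝ} (hx : x ≤ 0 ∨ 1 ≤ x) : hf x = 0 := by
  unfold hf
  rcases hx with h | h
  · rw [expNegInvGlue.zero_of_nonpos h, zero_mul]
  · rw [expNegInvGlue.zero_of_nonpos (show 1 - x ≤ 0 by linarith), mul_zero]

noncomputable def I0 : ℝ := ∫ y in (0:ℝ)..1, hf y

theorem I0_pos : 0 < I0 := by
  unfold I0
  apply intervalIntegral.intervalIntegral_pos_of_pos_on (hf_cont.intervalIntegrable _ _)
  · intro x hx
    exact mul_pos (expNegInvGlue.pos_of_pos hx.1) (expNegInvGlue.pos_of_pos (by linarith [hx.2]))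
  · norm_num

/-- A smooth transition. -/
noncomputable def Tr (x : ℝ) : ℝ := I0⁻¹ * ∫ y in (0:ℝ)..x, hf y

theorem Tr_zero {x : ℝ} (hx : x ≤ 0) : Tr x = 0 := by
  unfold Tr
  have : ∫ y in (0:ℝ)..x, hf y = 0 := by
    rw [intervalIntegral.integral_symm]
    have h : ∫ y in x..(0:ℝ), hf y = ∫ y in x..(0:ℝ), (0 : ℝ) := by
      apply intervalIntegral.integral_congr
      intro y hy
      rw [uIcc_of_le hx] at hy
      exact hf_zero (Or.inl hy.2)
    rw [h, intervalIntegral.integral_zero, neg_zero]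
  rw [this, mul_zero]

theorem Tr_one {x : ℝ} (hx : 1 ≤ x) : Tr x = 1 := by
  unfold Tr
  have h1 : ∫ y in (0:ℝ)..x, hf y = I0 := by
    rw [← intervalIntegral.integral_add_adjacent_intervals (b := 1)
      (hf_cont.intervalIntegrable _ _) (hf_cont.intervalIntegrable _ _)]
    have h : ∫ y in (1:ℝ)..x, hf y = ∫ y in (1:ℝ)..x, (0 : ℝ) := by
      apply intervalIntegral.integral_congr
      intro y hy
      rw [uIcc_of_le hx] at hy
      exact hf_zero (Or.inr hy.1)
    rw [h, intervalIntegral.integral_zero, add_zero]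
    rfl
  rw [h1, inv_mul_cancel₀ I0_pos.ne']

theorem Tr_deriv : deriv Tr = fun x => I0⁻¹ * hf x := by
  funext x
  have h : HasDerivAt (fun x => ∫ y in (0:ℝ)..x, hf y) (hf x) x :=
    intervalIntegral.integral_hasDerivAt_right (hf_cont.intervalIntegrable _ _)
      (hf_cont.stronglyMeasurableAtFilter _ _) hf_cont.continuousAt
  exact (h.const_mul I0⁻¹).deriv

theorem Tr_diff : Differentiable ℝ Tr := by
  intro x
  have h : HasDerivAt (fun x => ∫ y in (0:ℝ)..x, hf y) (hf x) x :=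
    intervalIntegral.integral_hasDerivAt_right (hf_cont.intervalIntegrable _ _)
      (hf_cont.stronglyMeasurableAtFilter _ _) hf_cont.continuousAt
  exact (h.const_mul I0⁻¹).differentiableAt

theorem Tr_mem (x : ℝ) : 0 ≤ Tr x ∧ Tr x ≤ 1 := by
  have hmono : Monotone Tr := by
    apply monotone_of_deriv_nonneg Tr_diff
    intro y
    rw [Tr_deriv]
    exact mul_nonneg (inv_nonneg.2 I0_pos.le) (hf_nonneg y)
  constructor
  · rw [← Tr_zero (min_le_right x 0)]
    exact hmono (min_le_left _ _)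
  · rw [← Tr_one (le_max_right x 1)]
    exact hmono (le_max_left _ _)

theorem Tr_GB : GB (univ : Set ℝ) Tr := by
  obtain ⟨h1, C, B, hC, hB, h2⟩ := hf_GB
  have hsm : ContDiff ℝ (⊤ : ℕ∞) Tr := by
    rw [contDiff_infty_iff_deriv]
    refine ⟨Tr_diff, ?_⟩
    rw [Tr_deriv]
    exact contDiff_const.mul h1
  have hI := inv_nonneg.2 I0_pos.le
  refine ⟨hsm, 1 + I0⁻¹ * C, max 1 B, by positivity, by positivity, ?_⟩
  intro k x _
  rw [norm_iteratedFDeriv_eq_norm_iteratedDeriv, Real.norm_eq_abs]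
  have hfk : (1 : ℝ) ≤ (k.factorial : ℝ) := by exact_mod_cast Nat.factorial_pos k
  rcases k with _ | k
  · rw [iteratedDeriv_zero, abs_of_nonneg (Tr_mem x).1]
    simp only [pow_zero, mul_one, Nat.factorial_zero, Nat.cast_one, one_pow]
    have := (Tr_mem x).2
    nlinarith [mul_nonneg hI hC]
  · rw [iteratedDeriv_succ', Tr_deriv, iteratedDeriv_const_mul_field, abs_mul, abs_of_nonneg hI]
    have h3 := h2 k x (mem_univ x)
    rw [norm_iteratedFDeriv_eq_norm_iteratedDeriv, Real.norm_eq_abs] at h3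
    have h4 : B ^ k ≤ max 1 B ^ (k + 1) := by
      calc B ^ k ≤ max 1 B ^ k := pow_le_pow_left₀ hB (le_max_right _ _) k
        _ ≤ max 1 B ^ (k + 1) := pow_le_pow_right₀ (le_max_left _ _) (Nat.le_succ k)
    have h5 : (k.factorial : ℝ) ≤ ((k + 1).factorial : ℝ) := by
      exact_mod_cast Nat.factorial_le (Nat.le_succ k)
    calc I0⁻¹ * |iteratedDeriv k hf x| ≤ I0⁻¹ * (C * B ^ k * (k.factorial : ℝ) ^ 2) := by gcongr
      _ ≤ I0⁻¹ * (C * max 1 B ^ (k + 1) * ((k + 1).factorial : ℝ) ^ 2) := by gcongr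
      _ = (I0⁻¹ * C) * (max 1 B ^ (k + 1) * ((k + 1).factorial : ℝ) ^ 2) := by ring
      _ ≤ (1 + I0⁻¹ * C) * (max 1 B ^ (k + 1) * ((k + 1).factorial : ℝ) ^ 2) := by
          gcongr
          linarith
      _ = _ := by ring

/-- A bump: `1` on `[-1/4, 1/4]` and `0` outside `(-1/2, 1/2)`. -/
noncomputable def tau (x : ℝ) : ℝ := Tr (4 * x + 2) * Tr (-4 * x + 2)

theorem tau_one {x : ℝ} (hx : |x| ≤ 1 / 4) : tau x = 1 := by
  unfold tau
  have h := abs_le.1 hx
  rw [Tr_one (by linarith [h.1]), Tr_one (by linarith [h.2]), one_mul]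

theorem tau_zero {x : ℝ} (hx : 1 / 2 ≤ |x|) : tau x = 0 := by
  unfold tau
  rcases le_abs.1 hx with h | h
  · rw [Tr_zero (show -4 * x + 2 ≤ 0 by linarith), mul_zero]
  · rw [Tr_zero (show 4 * x + 2 ≤ 0 by linarith), zero_mul]

theorem tau_GB : GB (univ : Set ℝ) tau := by
  have h : ∀ c : ℝ, GB (univ : Set ℝ) (fun x => Tr (c * x + 2)) := by
    intro c
    have := Tr_GB.comp_affine (t := (univ : Set ℝ)) (c • ContinuousLinearMap.id ℝ ℝ) 2
      (fun x _ => mem_univ _)
    simpa using this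
  exact (h 4).mul (h (-4))

variable {d : ℕ}

/-- The bump in `ℝ^d`. -/
noncomputable def phi (u : EuclideanSpace ℝ (Fin d)) : ℝ := ∏ k, tau (u k)

theorem phi_one {u : EuclideanSpace ℝ (Fin d)} (hu : ∀ k, |u k| ≤ 1 / 4) : phi u = 1 := by
  unfold phi
  exact Finset.prod_eq_one fun k _ => tau_one (hu k)

theorem phi_zero {u : EuclideanSpace ℝ (Fin d)} {k : Fin d} (hu : 1 / 2 ≤ |u k|) : phi u = 0 := by
  unfold phi
  exact Finset.prod_eq_zero (Finset.mem_univ k) (tau_zero hu)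

theorem phi_GB : GB (univ : Set (EuclideanSpace ℝ (Fin d))) phi := by
  unfold phi
  apply GB.prod
  intro k _
  have := tau_GB.comp_affine (t := (univ : Set (EuclideanSpace ℝ (Fin d))))
    (EuclideanSpace.proj k) 0 (fun x _ => mem_univ _)
  simpa using this

end Pool.Agent.L0h24.Uni
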