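import Mathlib

set_option autoImplicit false

/-! Gevrey bounds of order two. -/

open Set

namespace Pool.Agent.L0h24.Uni

variable {E F G : Type*} [NormedAddCommGroup E] [NormedSpace ℝ E] [NormedAddCommGroup F]
  [NormedSpace ℝ F] [NormedAddCommGroup G] [NormedSpace ℝ G]

/-- Smooth maps whose derivatives on `s` satisfy Gevrey bounds of order two. -/
def GB (s : Set E) (f : E → F) : Prop :=
  ContDiff ℝ (⊤ : ℕ∞) f ∧ ∃ C B : ℝ, 0 ≤ C ∧ 0 ≤ B ∧
    ∀ (k : ℕ), ∀ x ∈ s, ‖iteratedFDeriv ℝ k f x‖ ≤ C * B ^ k * (k.factorial : ℝ) ^ 2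

theorem GB.mono {s t : Set E} {f : E → F} (h : GB s f) (hst : t ⊆ s) : GB t f := by
  obtain ⟨h1, C, B, hC, hB, h2⟩ := h
  exact ⟨h1, C, B, hC, hB, fun k x hx => h2 k x (hst hx)⟩

theorem GB.add {s : Set E} {f g : E → F} (hf : GB s f) (hg : GB s g) : GB s (fun x => f x + g x) := by
  obtain ⟨hf1, C, B, hC, hB, hf2⟩ := hf
  obtain ⟨hg1, C', B', hC', hB', hg2⟩ := hg
  refine ⟨hf1.add hg1, C + C', max B B', by positivity, by positivity, ?_⟩
  intro k x hx
  have hk : ((k : ℕ) : WithTop ℕ∞) ≤ ((⊤ : ℕ∞) : WithTop ℕ∞) := by exact_mod_cast le_top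
  have h1 : iteratedFDeriv ℝ k (fun x => f x + g x) x =
      iteratedFDeriv ℝ k f x + iteratedFDeriv ℝ k g x :=
    iteratedFDeriv_add_apply (hf1.of_le hk).contDiffAt (hg1.of_le hk).contDiffAt
  rw [h1]
  have h2 : B ^ k ≤ max B B' ^ k := pow_le_pow_left₀ hB (le_max_left _ _) k
  have h3 : B' ^ k ≤ max B B' ^ k := pow_le_pow_left₀ hB' (le_max_right _ _) k
  calc ‖iteratedFDeriv ℝ k f x + iteratedFDeriv ℝ k g x‖
      ≤ C * B ^ k * (k.factorial : ℝ) ^ 2 + C' * B' ^ k * (k.factorial : ℝ) ^ 2 :=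
        (norm_add_le _ _).trans (add_le_add (hf2 k x hx) (hg2 k x hx))
    _ ≤ C * max B B' ^ k * (k.factorial : ℝ) ^ 2 + C' * max B B' ^ k * (k.factorial : ℝ) ^ 2 := by
        gcongr
    _ = _ := by ring

theorem GB.const {s : Set E} (c : F) : GB s (fun _ : E => c) := by
  refine ⟨contDiff_const, ‖c‖, 1, norm_nonneg _, zero_le_one, ?_⟩
  intro k x _
  have hf : (1 : ℝ) ≤ (k.factorial : ℝ) := by exact_mod_cast Nat.factorial_pos k
  rcases Nat.eq_zero_or_pos k with h | h
  · subst h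
    simp
  · rw [iteratedFDeriv_const_of_ne (by omega)]
    simp only [Pi.zero_apply, norm_zero]
    positivity

theorem GB.sum {ι : Type*} {s : Set E} (I : Finset ι) {f : ι → E → F} (h : ∀ i ∈ I, GB s (f i)) :
    GB s (fun x => ∑ i ∈ I, f i x) := by
  classical
  induction I using Finset.induction_on with
  | empty =>
    simp only [Finset.sum_empty]
    exact GB.const 0
  | insert a I ha ih =>
    have : (fun x => ∑ i ∈ insert a I, f i x) = fun x => f a x + ∑ i ∈ I, f i x := by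
      funext x
      rw [Finset.sum_insert ha]
    rw [this]
    exact (h a (Finset.mem_insert_self _ _)).add (ih fun i hi => h i (Finset.mem_insert_of_mem hi))

theorem choose_sum_le (n : ℕ) {B B' : ℝ} (hB : 0 ≤ B) (hB' : 0 ≤ B') :
    ∑ i ∈ Finset.range (n + 1), (n.choose i : ℝ) * (B ^ i * (i.factorial : ℝ) ^ 2) *
      (B' ^ (n - i) * ((n - i).factorial : ℝ) ^ 2) ≤ (B + B') ^ n * (n.factorial : ℝ) ^ 2 := by
  rw [add_pow, Finset.sum_mul]
  refine Finset.sum_le_sum fun i hi => ?_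
  have hin : i ≤ n := Nat.lt_succ_iff.1 (Finset.mem_range.1 hi)
  have h1 : (n.choose i : ℝ) * i.factorial * (n - i).factorial = n.factorial := by
    exact_mod_cast Nat.choose_mul_factorial_mul_factorial hin
  have h2 : (i.factorial : ℝ) * (n - i).factorial ≤ n.factorial := by
    have hdvd := Nat.factorial_mul_factorial_dvd_factorial hin
    exact_mod_cast Nat.le_of_dvd (Nat.factorial_pos n) hdvd
  have h3 : (1 : ℝ) ≤ n.choose i := by exact_mod_cast Nat.choose_pos hin
  have hf : (0 : ℝ) < n.factorial := by exact_mod_cast Nat.factorial_pos n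
  calc (n.choose i : ℝ) * (B ^ i * (i.factorial : ℝ) ^ 2) * (B' ^ (n - i) * ((n - i).factorial : ℝ) ^ 2)
      = B ^ i * B' ^ (n - i) * (((n.choose i : ℝ) * i.factorial * (n - i).factorial) *
        ((i.factorial : ℝ) * (n - i).factorial)) := by ring
    _ ≤ B ^ i * B' ^ (n - i) * ((n.factorial : ℝ) * n.factorial) := by
        rw [h1]
        gcongr
    _ = B ^ i * B' ^ (n - i) * 1 * (n.factorial : ℝ) ^ 2 := by ring
    _ ≤ _ := by gcongr

theorem GB.smul {s : Set E} {f : E → ℝ} {g : E → F} (hf : GB s f) (hg : GB s g) :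
    GB s (fun x => f x • g x) := by
  obtain ⟨hf1, C, B, hC, hB, hf2⟩ := hf
  obtain ⟨hg1, C', B', hC', hB', hg2⟩ := hg
  refine ⟨hf1.smul hg1, C * C', B + B', by positivity, by positivity, ?_⟩
  intro k x hx
  have hk : ((k : ℕ) : WithTop ℕ∞) ≤ ((⊤ : ℕ∞) : WithTop ℕ∞) := by exact_mod_cast le_top
  refine (norm_iteratedFDeriv_smul_le hf1 hg1 x hk).trans ?_
  calc ∑ i ∈ Finset.range (k + 1), (k.choose i : ℝ) * ‖iteratedFDeriv ℝ i f x‖ *
        ‖iteratedFDeriv ℝ (k - i) g x‖
      ≤ ∑ i ∈ Finset.range (k + 1), (k.choose i : ℝ) * (C * B ^ i * (i.factorial : ℝ) ^ 2) *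
        (C' * B' ^ (k - i) * ((k - i).factorial : ℝ) ^ 2) := by
        refine Finset.sum_le_sum fun i _ => ?_
        gcongr
        · exact hf2 i x hx
        · exact hg2 (k - i) x hx
    _ = C * C' * ∑ i ∈ Finset.range (k + 1), (k.choose i : ℝ) * (B ^ i * (i.factorial : ℝ) ^ 2) *
      (B' ^ (k - i) * ((k - i).factorial : ℝ) ^ 2) := by
        rw [Finset.mul_sum]
        refine Finset.sum_congr rfl fun i _ => ?_
        ring
    _ ≤ C * C' * ((B + B') ^ k * (k.factorial : ℝ) ^ 2) := by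
        gcongr
        exact choose_sum_le k hB hB'
    _ = _ := by ring

theorem GB.mul {s : Set E} {f g : E → ℝ} (hf : GB s f) (hg : GB s g) :
    GB s (fun x => f x * g x) := hf.smul hg

theorem GB.prod {ι : Type*} {s : Set E} (I : Finset ι) {f : ι → E → ℝ} (h : ∀ i ∈ I, GB s (f i)) :
    GB s (fun x => ∏ i ∈ I, f i x) := by
  classical
  induction I using Finset.induction_on with
  | empty =>
    simp only [Finset.prod_empty]
    exact GB.const 1
  | insert a I ha ih =>
    have : (fun x => ∏ i ∈ insert a I, f i x) = fun x => f a x * ∏ i ∈ I, f i x := by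
      funext x
      rw [Finset.prod_insert ha]
    rw [this]
    exact (h a (Finset.mem_insert_self _ _)).mul (ih fun i hi => h i (Finset.mem_insert_of_mem hi))

/-- Composition with an affine map. -/
theorem GB.comp_affine {s : Set E} {t : Set G} {f : E → F} (hf : GB s f) (L : G →L[ℝ] E) (a : E)
    (hst : ∀ x ∈ t, L x + a ∈ s) : GB t (fun x => f (L x + a)) := by
  obtain ⟨hf1, C, B, hC, hB, hf2⟩ := hf
  set h : E → F := fun y => f (y + a) with hh
  have hhd : ContDiff ℝ (⊤ : ℕ∞) h := hf1.comp (contDiff_id.add contDiff_const)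
  refine ⟨hhd.comp L.contDiff, C, B * ‖L‖, hC, by positivity, ?_⟩
  intro k x hx
  have hk : ((k : ℕ) : WithTop ℕ∞) ≤ ((⊤ : ℕ∞) : WithTop ℕ∞) := by exact_mod_cast le_top
  have h1 : iteratedFDeriv ℝ k (fun x => f (L x + a)) x =
      (iteratedFDeriv ℝ k h (L x)).compContinuousLinearMap fun _ => L :=
    L.iteratedFDeriv_comp_right hhd x hk
  have h2 : iteratedFDeriv ℝ k h (L x) = iteratedFDeriv ℝ k f (L x + a) := by
    rw [hh, iteratedFDeriv_comp_add_right]
  rw [h1, h2]
  refine (ContinuousMultilinearMap.norm_compContinuousLinearMap_le _ _).trans ?_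
  rw [Finset.prod_const, Finset.card_univ, Fintype.card_fin]
  calc ‖iteratedFDeriv ℝ k f (L x + a)‖ * ‖L‖ ^ k
      ≤ (C * B ^ k * (k.factorial : ℝ) ^ 2) * ‖L‖ ^ k := by
        gcongr
        exact hf2 k _ (hst x hx)
    _ = _ := by rw [mul_pow]; ring

/-- Affine maps on bounded sets. -/
theorem GB.affine {s : Set E} (L : E →L[ℝ] F) (a : F) {ρ : ℝ} (hs : ∀ x ∈ s, ‖x‖ ≤ ρ) :
    GB s (fun x => L x + a) := by
  rcases s.eq_empty_or_nonempty with h0 | ⟨x0, hx0⟩
  · subst h0
    exact ⟨L.contDiff.add contDiff_const, 0, 0, le_rfl, le_rfl, fun k x hx => absurd hx (by simp)⟩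
  have hρ : 0 ≤ ρ := (norm_nonneg x0).trans (hs x0 hx0)
  refine ⟨L.contDiff.add contDiff_const, ‖L‖ * (ρ + 1) + ‖a‖, 1, by positivity, zero_le_one, ?_⟩
  intro k x hx
  have hf : (1 : ℝ) ≤ (k.factorial : ℝ) := by exact_mod_cast Nat.factorial_pos k
  have hf2 : (1 : ℝ) ≤ (k.factorial : ℝ) ^ 2 := one_le_pow₀ hf
  rw [one_pow, mul_one]
  have hn : 0 ≤ ‖L‖ * (ρ + 1) + ‖a‖ := by positivity
  have key : ‖iteratedFDeriv ℝ k (fun x => L x + a) x‖ ≤ ‖L‖ * (ρ + 1) + ‖a‖ := by
    rcases k with _ | k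
    · rw [norm_iteratedFDeriv_zero]
      refine (norm_add_le _ _).trans ?_
      have := (L.le_opNorm x).trans (mul_le_mul_of_nonneg_left (hs x hx) (norm_nonneg L))
      nlinarith [norm_nonneg L]
    · have hfd : fderiv ℝ (fun x => L x + a) = fun _ => L := by
        funext y
        rw [fderiv_add_const]
        exact L.fderiv
      rw [← norm_iteratedFDeriv_fderiv, hfd]
      rcases k with _ | k
      · rw [norm_iteratedFDeriv_zero]
        nlinarith [norm_nonneg L, norm_nonneg a]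
      · rw [iteratedFDeriv_const_of_ne (by omega)]
        simpa using hn
  calc _ ≤ ‖L‖ * (ρ + 1) + ‖a‖ := key
    _ ≤ _ := le_mul_of_one_le_right hn hf2

end Pool.Agent.L0h24.Uni
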