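import Pool.Agent.L0h24.Uni.Transfer

set_option autoImplicit false

/-! The universal family of lines. -/

open MeasureTheory Set Metric Topology
open scoped ENNReal NNReal

namespace Pool.Agent.L0h24.Uni

open Pool.Agent.H810R3.Tub (Vec Space tube dir Fe tube_closed tube_eq)
open Pool.Agent.Y254.EL (Pt tb tb_meas Sep LF lint_zoom lint_aniso)
open Pool.Agent.Y254 (mult mult_meas)

/-- A finite configuration of tubes. -/
structure Cfg (d : ℕ) where
  ι : Type
  fin : Fintype ι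
  δ : ℝ
  R : ℝ
  b : ι → ℝ
  P : ι → Fin d → ℝ
  v : ι → Fin d → ℝ
  hδ : 0 < δ
  hδ1 : δ < 1
  hR : 1 ≤ R
  hv : ∀ i, ‖v i‖ ≤ 1
  hs : Sep δ v

attribute [instance] Cfg.fin

variable {d : ℕ}

/-- The integral of the power of the multiplicity. -/
noncomputable def Cfg.val (K : Cfg d) (q : ℝ) : ℝ≥0∞ :=
  ∫⁻ z, mult (fun i => tb K.R (K.R * K.δ) (K.b i) (K.P i) (K.v i)) z ^ q

theorem exists_cfg (d : ℕ) (q C R : ℝ) (hR : 1 ≤ R) : ∃ K : Cfg d, K.R = R ∧
    (¬ LF d R q C → ENNReal.ofReal (C * (K.δ ^ d * (Fintype.card K.ι : ℝ) ^ (q - 1 / (d : ℝ)))) <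
      K.val q) := by
  by_cases h : LF d R q C
  · refine ⟨⟨Empty, inferInstance, 1 / 2, R, fun _ => 0, fun _ => 0, fun _ => 0, by norm_num,
      by norm_num, hR, fun i => i.elim, fun i => i.elim⟩, rfl, fun hn => absurd h hn⟩
  · unfold LF at h
    push Not at h
    obtain ⟨δ, hδ, hδ1, ι, hι, b, P, v, hv, hs, hlt⟩ := h
    exact ⟨⟨ι, hι, δ, R, b, P, v, hδ, hδ1, hR, hv, hs⟩, rfl, fun _ => hlt⟩

/-- The centres of the cells. -/
noncomputable def xn (d n : ℕ) : ℝ := (1 / 2) ^ (n + 1) / d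
/-- The sizes of the cells. -/
noncomputable def rn (d n : ℕ) : ℝ := (1 / 2) ^ (n + 5) / d

noncomputable def cn (d n : ℕ) : Vec d := WithLp.toLp 2 (fun _ => xn d n)

theorem rn_pos (hd : 1 ≤ d) (n : ℕ) : 0 < rn d n := by
  have hd0 : (0 : ℝ) < d := by exact_mod_cast hd
  unfold rn
  positivity

theorem rn_le (hd : 1 ≤ d) (n : ℕ) : rn d n ≤ 1 := by
  have hd0 : (0 : ℝ) < d := by exact_mod_cast hd
  have hd1 : (1 : ℝ) ≤ d := by exact_mod_cast hd
  unfold rn
  rw [div_le_one hd0]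
  exact (pow_le_one₀ (by norm_num) (by norm_num)).trans hd1

theorem xr_le (hd : 1 ≤ d) (n : ℕ) : xn d n + 2 * rn d n ≤ 3 / 4 / d := by
  have hd0 : (0 : ℝ) < d := by exact_mod_cast hd
  have h1 : ((1 : ℝ) / 2) ^ n ≤ 1 := pow_le_one₀ (by norm_num) (by norm_num)
  unfold xn rn
  have e : (1 / 2 : ℝ) ^ (n + 1) / d + 2 * ((1 / 2) ^ (n + 5) / d) = (9 / 16 * (1 / 2) ^ n) / d := by
    rw [pow_add, pow_add]
    ring
  rw [e]
  apply div_le_div_of_nonneg_right _ hd0.le
  linarith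

theorem cells_disjoint (hd : 1 ≤ d) {n m : ℕ} (hnm : n ≠ m) {y : ℝ}
    (hy : |y - xn d n| ≤ 2 * rn d n) : 2 * rn d m ≤ |y - xn d m| := by
  have hd0 : (0 : ℝ) < d := by exact_mod_cast hd
  have key : ∀ n m : ℕ, n < m → xn d m + 2 * rn d m + 2 * rn d n ≤ xn d n := by
    intro n m h
    have h1 : ((1 : ℝ) / 2) ^ m ≤ (1 / 2) ^ (n + 1) :=
      pow_le_pow_of_le_one (by norm_num) (by norm_num) h
    unfold xn rn
    have e1 : (1 / 2 : ℝ) ^ (m + 1) / d + 2 * ((1 / 2) ^ (m + 5) / d) + 2 * ((1 / 2) ^ (n + 5) / d) =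
        (9 / 16 * (1 / 2) ^ m + 1 / 16 * (1 / 2) ^ n) / d := by
      rw [pow_add, pow_add, pow_add]
      ring
    rw [e1]
    apply div_le_div_of_nonneg_right _ hd0.le
    have h2 : (0 : ℝ) < (1 / 2) ^ n := by positivity
    rw [pow_succ] at h1 ⊢
    linarith
  have hy' := abs_le.1 hy
  rcases lt_or_gt_of_ne hnm with h | h
  · have := key n m h
    rw [le_abs]
    left
    linarith [hy'.1]
  · have := key m n h
    rw [le_abs]
    right
    linarith [hy'.2]

/-- The choice of the scale. -/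
theorem exists_scale (hd : 1 ≤ d) (K : Cfg d) (c : Vec d) {ρ : ℝ} (hρ : 0 < ρ) {ε : ℝ} (hε : 0 < ε) :
    ∃ m : ℕ, 1 ≤ m ∧
      (∀ (k : ℕ) (x : Vec d), ‖iteratedFDeriv ℝ k (fun y => ((1 / (64 * d * K.R * m)) * ρ) •
        cellMap c ρ K.δ K.b K.P K.v y) x‖ ≤ ε * (k.factorial : ℝ) ^ 3) ∧
      ∀ i, (1 / (64 * d * K.R * m)) * (|K.b i| + K.R) ≤ 1 / 8 := by
  obtain ⟨r0, hr0, h⟩ := small_GB (cellMap_GB (c := c) hρ K.hδ K.hδ1.le K.b K.P K.v K.hv) hε
  have hd0 : (0 : ℝ) < d := by exact_mod_cast hd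
  have hd1 : (1 : ℝ) ≤ d := by exact_mod_cast hd
  have hR := K.hR
  have hR0 : 0 < K.R := by linarith
  obtain ⟨B, hB⟩ : ∃ B : ℝ, ∀ i, |K.b i| ≤ B := by
    refine ⟨∑ i, |K.b i|, fun i => ?_⟩
    exact Finset.single_le_sum (f := fun i => |K.b i|) (fun i _ => abs_nonneg _) (Finset.mem_univ i)
  obtain ⟨m, hm⟩ := exists_nat_ge (max 1 (max (ρ / r0) (|B| + K.R)))
  have hm1 : (1 : ℝ) ≤ m := (le_max_left _ _).trans hm
  have hm2 : ρ / r0 ≤ m := ((le_max_left _ _).trans (le_max_right _ _)).trans hm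
  have hm3 : |B| + K.R ≤ m := ((le_max_right _ _).trans (le_max_right _ _)).trans hm
  have hm0 : (0 : ℝ) < m := by linarith
  have hdR : 1 ≤ d * K.R := by nlinarith
  refine ⟨m, by exact_mod_cast hm1, ?_, ?_⟩
  · apply h _ (by positivity)
    rw [div_le_iff₀ hr0] at hm2
    rw [one_div, ← div_eq_inv_mul, div_le_iff₀ (by positivity)]
    calc ρ ≤ m * r0 := hm2
      _ ≤ r0 * (64 * d * K.R * m) := by
          have h2 : 0 < r0 * m := by positivity
          nlinarith [mul_le_mul_of_nonneg_left hdR h2.le]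
  · intro i
    rw [one_div, ← div_eq_inv_mul, div_le_iff₀ (by positivity)]
    have h1 := (hB i).trans (le_abs_self B)
    have h2 : 1 * (m : ℝ) ≤ (d * K.R) * m := mul_le_mul_of_nonneg_right hdR hm0.le
    nlinarith

/-- **The universal family.** -/
theorem exists_family (hd : 1 ≤ d) {ε : ℝ} (hε : 0 < ε) (K : ℕ → Cfg d) :
    ∃ A : Vec d → Vec d, ContDiff ℝ (⊤ : ℕ∞) A ∧
      (∀ (k : ℕ) (x : Vec d), ‖iteratedFDeriv ℝ k A x‖ ≤ ε * (k.factorial : ℝ) ^ 3) ∧
      (∀ x : Vec d, 1 ≤ ‖x‖ → A x = 0) ∧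
      ∀ (q X : ℝ), 0 < q → NL A q X → ∀ n : ℕ, (K n).val q ≤
        ENNReal.ofReal (X * ((8 * d * (K n).R) ^ d * (64 * d * (K n).R)) *
          ((K n).δ ^ d * (Fintype.card (K n).ι : ℝ) ^ (q - 1 / (d : ℝ)))) := by
  classical
  have hd0 : (0 : ℝ) < d := by exact_mod_cast hd
  have hd1 : (1 : ℝ) ≤ d := by exact_mod_cast hd
  choose m hm1 hmD hmb using fun n : ℕ =>
    exists_scale hd (K n) (cn d n) (rn_pos hd n) (ε := ε * (1 / 2) ^ (n + 1)) (by positivity)
  set a : ℕ → ℝ := fun n => 1 / (64 * d * (K n).R * m n) with ha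
  set G : ℕ → Vec d → Vec d := fun n => cellMap (cn d n) (rn d n) (K n).δ (K n).b (K n).P (K n).v
    with hG
  set f : ℕ → Vec d → Vec d := fun n y => (a n * rn d n) • G n y with hf
  have hfar : ∀ (n : ℕ) (x : Vec d) (k : Fin d), 2 * rn d n ≤ |x k - xn d n| → f n x = 0 := by
    intro n x k hx
    rw [hf]
    simp only
    rw [hG]
    simp only
    rw [cellMap_far (rn_pos hd n) (K n).hδ (K n).hδ1.le (K n).b (K n).P (K n).v (K n).hv (k := k) hx,
      smul_zero]
  have hsm : ∀ n, ContDiff ℝ (⊤ : ℕ∞) (f n) := by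
    intro n
    have h := (cellMap_GB (c := cn d n) (rn_pos hd n) (K n).hδ (K n).hδ1.le (K n).b (K n).P (K n).v
      (K n).hv).1
    exact h.const_smul (a n * rn d n)
  set vb : ℕ → ℕ → ℝ := fun k n => ε * (1 / 2) ^ (n + 1) * (k.factorial : ℝ) ^ 3 with hvb
  have hvs : ∀ k : ℕ, HasSum (vb k) (ε * (k.factorial : ℝ) ^ 3) := by
    intro k
    have h1 : HasSum (fun n : ℕ => (1 / 2 : ℝ) ^ n) 2 := hasSum_geometric_two
    have h2 := h1.mul_left (ε * (1 / 2) * (k.factorial : ℝ) ^ 3)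
    have e : (fun n : ℕ => ε * (1 / 2) * (k.factorial : ℝ) ^ 3 * (1 / 2) ^ n) = vb k := by
      funext n
      rw [hvb]
      simp only
      rw [pow_succ]
      ring
    rw [e] at h2
    have e2 : ε * (1 / 2) * (k.factorial : ℝ) ^ 3 * 2 = ε * (k.factorial : ℝ) ^ 3 := by ring
    rwa [e2] at h2
  have hbd : ∀ (k : ℕ) (n : ℕ) (x : Vec d), (k : ℕ∞) ≤ (⊤ : ℕ∞) →
      ‖iteratedFDeriv ℝ k (f n) x‖ ≤ vb k n := fun k n x _ => hmD n k x
  set A : Vec d → Vec d := fun x => ∑' n, f n x with hA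
  refine ⟨A, contDiff_tsum (N := ⊤) hsm (fun k _ => (hvs k).summable) hbd, ?_, ?_, ?_⟩
  · intro k x
    rw [hA, iteratedFDeriv_tsum_apply (N := ⊤) hsm (fun k _ => (hvs k).summable) hbd le_top]
    exact tsum_of_norm_bounded (hvs k) (fun n => hbd k n x le_top)
  · intro x hx
    rw [hA]
    simp only
    obtain ⟨k, hk⟩ : ∃ k, 3 / 4 / d + 1 / 4 / d ≤ |x k| := by
      by_contra hcon
      push Not at hcon
      have hne : Nonempty (Fin d) := ⟨⟨0, hd⟩⟩
      obtain ⟨k0, hk0⟩ := Finite.exists_max (fun k => |x k|)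
      have h1 : ‖x‖ ≤ d * |x k0| := norm_toLp_le (fun k => x k) (abs_nonneg _) hk0
      have h2 := hcon k0
      have h3 : (3 / 4 / d + 1 / 4 / d : ℝ) = 1 / d := by ring
      rw [h3] at h2
      have h4 : d * |x k0| < d * (1 / d) := by gcongr
      rw [mul_one_div, div_self hd0.ne'] at h4
      linarith
    have hz : ∀ n, f n x = 0 := by
      intro n
      apply hfar n x k
      have h1 := xr_le hd n
      have h2 : 0 < xn d n := by unfold xn; positivity
      have h3 := rn_pos hd n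
      have h4 : 0 < 1 / 4 / (d : ℝ) := by positivity
      have h5 : |x k| ≤ |x k - xn d n| + xn d n := by
        have : x k = (x k - xn d n) + xn d n := by ring
        nth_rewrite 1 [this]
        refine (abs_add_le _ _).trans ?_
        rw [abs_of_pos h2]
      linarith
    simp only [hz, tsum_zero]
  · intro q X hq hNL n
    have hball : ∀ u : Fin d → ℝ, ‖u‖ ≤ 2 →
        ‖cn d n + rn d n • (WithLp.toLp 2 u : Vec d)‖ ≤ 1 := by
      intro u hu
      have e : cn d n + rn d n • (WithLp.toLp 2 u : Vec d) =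
          WithLp.toLp 2 (fun k => xn d n + rn d n * u k) := rfl
      rw [e]
      refine (norm_toLp_le _ (M := 1 / d) (by positivity) ?_).trans (le_of_eq ?_)
      · intro k
        have h1 := (norm_le_pi_norm u k).trans hu
        rw [Real.norm_eq_abs] at h1
        have h2 : 0 < xn d n := by unfold xn; positivity
        have h3 := rn_pos hd n
        refine (abs_add_le _ _).trans ?_
        rw [abs_of_pos h2, abs_mul, abs_of_pos h3]
        have h4 := xr_le hd n
        have h5 : (3 / 4 / d : ℝ) ≤ 1 / d := by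
          apply div_le_div_of_nonneg_right _ hd0.le
          norm_num
        have h6 : rn d n * |u k| ≤ rn d n * 2 := by gcongr
        linarith
      · field_simp
    refine transfer hd hq hNL (K n).hδ (K n).hδ1 (K n).hR (K n).b (K n).P (K n).v (K n).hv (K n).hs
      (cn d n) (rn_pos hd n) (rn_le hd n) hball (hm1 n) (r := a n) rfl (hmb n) ?_
    intro i u hu
    have hρ := rn_pos hd n
    set y : Vec d := cn d n + rn d n • (WithLp.toLp 2 u : Vec d) with hy
    have hu2 : ∀ k, |u k| ≤ 2 := by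
      intro k
      have h1 := hu k
      have h2 := (norm_le_pi_norm ((K n).v i) k).trans ((K n).hv i)
      rw [Real.norm_eq_abs] at h2
      have h3 : u k = (u k - (K n).v i k) + (K n).v i k := by ring
      rw [h3]
      refine (abs_add_le _ _).trans ?_
      have := (K n).hδ1
      linarith
    have hother : ∀ j, j ≠ n → f j y = 0 := by
      intro j hj
      apply hfar j y ⟨0, hd⟩
      apply cells_disjoint hd (Ne.symm hj)
      have e : y ⟨0, hd⟩ - xn d n = rn d n * u ⟨0, hd⟩ := by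
        show (xn d n + rn d n * u ⟨0, hd⟩) - xn d n = _
        ring
      rw [e, abs_mul, abs_of_pos hρ]
      have := hu2 ⟨0, hd⟩
      nlinarith
    have hAy : A y = f n y := tsum_eq_single n hother
    rw [hAy]
    show (a n * rn d n) • cellMap (cn d n) (rn d n) (K n).δ (K n).b (K n).P (K n).v y = _
    congr 1
    unfold cellMap
    have e : (rn d n)⁻¹ • (y - cn d n) = (WithLp.toLp 2 u : Vec d) := by
      rw [hy, add_sub_cancel_left, smul_smul, inv_mul_cancel₀ hρ.ne', one_smul]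
    rw [e]
    exact psi_near (K n).hδ (K n).b (K n).P (K n).v (K n).hs (u := WithLp.toLp 2 u) hu

end Pool.Agent.L0h24.Uni
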