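import Pool.Agent.L0h24.Uni.Bump

set_option autoImplicit false

/-! The smooth family of lines of a configuration. -/

open Set MeasureTheory

namespace Pool.Agent.L0h24.Uni

/-- Euclidean space. -/
abbrev Vc (d : ℕ) : Type := EuclideanSpace ℝ (Fin d)

variable {d : ℕ} {ι : Type} [Fintype ι]

/-- A smooth map which is `P i - b i (u - v i)` near `v i`. -/
noncomputable def psi (δ : ℝ) (b : ι → ℝ) (P v : ι → Fin d → ℝ) (u : Vc d) : Vc d :=
  ∑ i, phi (δ⁻¹ • (u - WithLp.toLp 2 (v i))) •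
    (WithLp.toLp 2 (P i) - b i • (u - WithLp.toLp 2 (v i)))

theorem psi_near {δ : ℝ} (hδ : 0 < δ) (b : ι → ℝ) (P v : ι → Fin d → ℝ)
    (hs : ∀ i j, i ≠ j → δ ≤ ‖v i - v j‖) {i : ι} {u : Vc d} (hu : ∀ k, |u k - v i k| ≤ δ / 4) :
    psi δ b P v u = WithLp.toLp 2 (P i) - b i • (u - WithLp.toLp 2 (v i)) := by
  classical
  unfold psi
  rw [Finset.sum_eq_single i]
  · rw [phi_one, one_smul]
    intro k
    have h := hu k
    have e : (δ⁻¹ • (u - WithLp.toLp 2 (v i))) k = δ⁻¹ * (u k - v i k) := rfl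
    rw [e, abs_mul, abs_of_pos (inv_pos.2 hδ), inv_mul_le_iff₀ hδ]
    linarith
  · intro j _ hj
    have h1 := hs j i hj
    have hpos : 0 < ‖v j - v i‖ := by linarith
    have hne : Nonempty (Fin d) := by
      by_contra hcon
      rw [not_nonempty_iff] at hcon
      have : v j - v i = 0 := Subsingleton.elim _ _
      rw [this, norm_zero] at hpos
      exact lt_irrefl _ hpos
    obtain ⟨k, hk⟩ : ∃ k, δ * (3 / 4) < |v j k - v i k| := by
      by_contra hcon
      push Not at hcon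
      have : ‖v j - v i‖ ≤ δ * (3 / 4) := by
        rw [pi_norm_le_iff_of_nonneg (by positivity)]
        intro k
        exact hcon k
      linarith
    rw [phi_zero (k := k), zero_smul]
    have e : (δ⁻¹ • (u - WithLp.toLp 2 (v j))) k = δ⁻¹ * (u k - v j k) := rfl
    rw [e, abs_mul, abs_of_pos (inv_pos.2 hδ), le_inv_mul_iff₀ hδ]
    have h2 := hu k
    have h3 : |v j k - v i k| ≤ |u k - v i k| + |u k - v j k| := by
      have : v j k - v i k = (u k - v i k) - (u k - v j k) := by ring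
      rw [this]
      exact abs_sub _ _
    linarith
  · intro h
    exact absurd (Finset.mem_univ _) h

theorem psi_far {δ : ℝ} (hδ : 0 < δ) (hδ1 : δ ≤ 1) (b : ι → ℝ) (P v : ι → Fin d → ℝ)
    (hv : ∀ i, ‖v i‖ ≤ 1) {u : Vc d} {k : Fin d} (hu : 2 ≤ |u k|) : psi δ b P v u = 0 := by
  unfold psi
  apply Finset.sum_eq_zero
  intro i _
  rw [phi_zero (k := k), zero_smul]
  have e : (δ⁻¹ • (u - WithLp.toLp 2 (v i))) k = δ⁻¹ * (u k - v i k) := rfl
  rw [e, abs_mul, abs_of_pos (inv_pos.2 hδ), le_inv_mul_iff₀ hδ]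
  have h1 := (norm_le_pi_norm (v i) k).trans (hv i)
  rw [Real.norm_eq_abs] at h1
  have h3 : |u k| ≤ |u k - v i k| + |v i k| := by
    have : u k = (u k - v i k) + v i k := by ring
    nth_rewrite 1 [this]
    exact abs_add_le _ _
  linarith

theorem psi_GB {δ : ℝ} (b : ι → ℝ) (P v : ι → Fin d → ℝ) {s : Set (Vc d)} {ρ : ℝ}
    (hs : ∀ x ∈ s, ‖x‖ ≤ ρ) : GB s (psi δ b P v) := by
  unfold psi
  apply GB.sum
  intro i _
  apply GB.smul
  · have h := (phi_GB (d := d)).comp_affine (t := s) (δ⁻¹ • ContinuousLinearMap.id ℝ (Vc d))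
      (-(δ⁻¹ • WithLp.toLp 2 (v i))) (fun x _ => mem_univ _)
    have e : (fun x : Vc d => phi ((δ⁻¹ • ContinuousLinearMap.id ℝ (Vc d)) x +
        -(δ⁻¹ • WithLp.toLp 2 (v i)))) = fun x => phi (δ⁻¹ • (x - WithLp.toLp 2 (v i))) := by
      funext x
      congr 1
      rw [ContinuousLinearMap.smul_apply, ContinuousLinearMap.id_apply, smul_sub, ← sub_eq_add_neg]
    rwa [e] at h
  · have h := GB.affine (s := s) (-(b i • ContinuousLinearMap.id ℝ (Vc d)))
      (WithLp.toLp 2 (P i) + b i • WithLp.toLp 2 (v i)) hs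
    have e : (fun x : Vc d => (-(b i • ContinuousLinearMap.id ℝ (Vc d))) x +
        (WithLp.toLp 2 (P i) + b i • WithLp.toLp 2 (v i))) =
        fun x => WithLp.toLp 2 (P i) - b i • (x - WithLp.toLp 2 (v i)) := by
      funext x
      rw [ContinuousLinearMap.neg_apply, ContinuousLinearMap.smul_apply,
        ContinuousLinearMap.id_apply, smul_sub]
      abel
    rwa [e] at h

/-- The rescaled map is supported in a cube. -/
noncomputable def cellMap (c : Vc d) (ρ δ : ℝ) (b : ι → ℝ) (P v : ι → Fin d → ℝ) (x : Vc d) : Vc d :=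
  psi δ b P v (ρ⁻¹ • (x - c))

theorem cellMap_far {c : Vc d} {ρ δ : ℝ} (hρ : 0 < ρ) (hδ : 0 < δ) (hδ1 : δ ≤ 1) (b : ι → ℝ)
    (P v : ι → Fin d → ℝ) (hv : ∀ i, ‖v i‖ ≤ 1) {x : Vc d} {k : Fin d} (hx : 2 * ρ ≤ |x k - c k|) :
    cellMap c ρ δ b P v x = 0 := by
  unfold cellMap
  apply psi_far hδ hδ1 b P v hv (k := k)
  have e : (ρ⁻¹ • (x - c)) k = ρ⁻¹ * (x k - c k) := rfl
  rw [e, abs_mul, abs_of_pos (inv_pos.2 hρ), le_inv_mul_iff₀ hρ]
  linarith

theorem cellMap_GB {c : Vc d} {ρ δ : ℝ} (hρ : 0 < ρ) (hδ : 0 < δ) (hδ1 : δ ≤ 1) (b : ι → ℝ)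
    (P v : ι → Fin d → ℝ) (hv : ∀ i, ‖v i‖ ≤ 1) :
    GB (univ : Set (Vc d)) (cellMap c ρ δ b P v) := by
  classical
  set D : ℝ := 2 * ρ * (d + 1) with hD
  have hD0 : 0 ≤ D := by positivity
  have h1 : GB (Metric.closedBall c D) (cellMap c ρ δ b P v) := by
    have h := (psi_GB (δ := δ) b P v (s := Metric.closedBall (0 : Vc d) (ρ⁻¹ * D)) (ρ := ρ⁻¹ * D)
      (fun x hx => by simpa using hx)).comp_affine (t := Metric.closedBall c D)
      (ρ⁻¹ • ContinuousLinearMap.id ℝ (Vc d)) (-(ρ⁻¹ • c)) (by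
        intro x hx
        rw [ContinuousLinearMap.smul_apply, ContinuousLinearMap.id_apply, ← sub_eq_add_neg,
          ← smul_sub, mem_closedBall_zero_iff, norm_smul, Real.norm_eq_abs,
          abs_of_pos (inv_pos.2 hρ)]
        rw [mem_closedBall_iff_norm] at hx
        gcongr)
    have e : (fun x : Vc d => psi δ b P v ((ρ⁻¹ • ContinuousLinearMap.id ℝ (Vc d)) x + -(ρ⁻¹ • c))) =
        cellMap c ρ δ b P v := by
      funext x
      unfold cellMap
      congr 1
      rw [ContinuousLinearMap.smul_apply, ContinuousLinearMap.id_apply, smul_sub, ← sub_eq_add_neg]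
    rwa [e] at h
  obtain ⟨hsm, C, B, hC, hB, hbd⟩ := h1
  refine ⟨hsm, C, B, hC, hB, ?_⟩
  intro k x _
  by_cases hx : x ∈ Metric.closedBall c D
  · exact hbd k x hx
  · have hsupp : tsupport (cellMap c ρ δ b P v) ⊆ Metric.closedBall c D := by
      apply closure_minimal _ Metric.isClosed_closedBall
      intro y hy
      rw [Function.mem_support] at hy
      rw [mem_closedBall_iff_norm]
      have hk : ∀ k, |(y - c) k| ≤ 2 * ρ := by
        intro k
        by_contra hcon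
        rw [not_le] at hcon
        exact hy (cellMap_far hρ hδ hδ1 b P v hv (k := k) hcon.le)
      have h2 : ‖y - c‖ ^ 2 ≤ (d : ℝ) * (2 * ρ) ^ 2 := by
        rw [EuclideanSpace.real_norm_sq_eq]
        calc ∑ i, (y - c) i ^ 2 ≤ ∑ _i : Fin d, (2 * ρ) ^ 2 := by
              refine Finset.sum_le_sum fun i _ => ?_
              rw [← sq_abs]
              exact pow_le_pow_left₀ (abs_nonneg _) (hk i) 2
          _ = _ := by simp
      have h3 : (0 : ℝ) ≤ d := Nat.cast_nonneg d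
      have h4 : (d : ℝ) * (2 * ρ) ^ 2 ≤ D ^ 2 := by
        rw [hD]
        nlinarith [mul_nonneg h3 (sq_nonneg ρ), mul_nonneg (mul_nonneg h3 h3) (sq_nonneg ρ),
          sq_nonneg ρ]
      exact le_of_sq_le_sq (h2.trans h4) hD0
    have hx2 : x ∉ tsupport (cellMap c ρ δ b P v) := fun h => hx (hsupp h)
    have h0 : iteratedFDeriv ℝ k (cellMap c ρ δ b P v) x = 0 := by
      by_contra hcon
      exact hx2 (tsupport_iteratedFDeriv_subset (𝕜 := ℝ) k
        (subset_tsupport _ (Function.mem_support.2 hcon)))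
    rw [h0, norm_zero]
    positivity

/-- Small multiples satisfy small bounds of order three. -/
theorem small_GB {E F : Type*} [NormedAddCommGroup E] [NormedSpace ℝ E] [NormedAddCommGroup F]
    [NormedSpace ℝ F] {G : E → F} (hG : GB (univ : Set E) G) {ε : ℝ} (hε : 0 < ε) :
    ∃ r0 : ℝ, 0 < r0 ∧ ∀ r : ℝ, 0 ≤ r → r ≤ r0 → ∀ (k : ℕ) (x : E),
      ‖iteratedFDeriv ℝ k (fun y => r • G y) x‖ ≤ ε * (k.factorial : ℝ) ^ 3 := by
  obtain ⟨hsm, C, B, hC, hB, hbd⟩ := hG
  refine ⟨ε / ((C + 1) * Real.exp B), by positivity, ?_⟩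
  intro r hr hr0 k x
  have hk : ((k : ℕ) : WithTop ℕ∞) ≤ ((⊤ : ℕ∞) : WithTop ℕ∞) := by exact_mod_cast le_top
  have h1 : iteratedFDeriv ℝ k (fun y => r • G y) x = r • iteratedFDeriv ℝ k G x :=
    iteratedFDeriv_const_smul_apply (hsm.of_le hk).contDiffAt
  rw [h1, norm_smul, Real.norm_eq_abs, abs_of_nonneg hr]
  have hf : (0 : ℝ) < k.factorial := by exact_mod_cast Nat.factorial_pos k
  have h2 : B ^ k ≤ Real.exp B * k.factorial := by
    have := Real.pow_div_factorial_le_exp B hB k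
    rwa [div_le_iff₀ hf] at this
  have hexp := Real.exp_pos B
  calc r * ‖iteratedFDeriv ℝ k G x‖ ≤ r * (C * B ^ k * (k.factorial : ℝ) ^ 2) := by
        gcongr
        exact hbd k x (mem_univ x)
    _ ≤ r * ((C + 1) * (Real.exp B * k.factorial) * (k.factorial : ℝ) ^ 2) := by
        gcongr
        linarith
    _ = (r * ((C + 1) * Real.exp B)) * (k.factorial : ℝ) ^ 3 := by ring
    _ ≤ ε * (k.factorial : ℝ) ^ 3 := by
        gcongr
        rwa [le_div_iff₀ (by positivity)] at hr0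

end Pool.Agent.L0h24.Uni
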