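import Pool.Agent.L0h24.Uni.Psi
import Pool.Agent.H810R3.Tub.Bounds
import Pool.Agent.Y254.EL.Fin

set_option autoImplicit false

/-! Localisation: a configuration of tubes inside a family of lines. -/

open MeasureTheory Set Metric Topology
open scoped ENNReal NNReal

namespace Pool.Agent.L0h24.Uni

open Pool.Agent.H810R3.Tub (Vec Space tube dir Fe tube_closed tube_eq)
open Pool.Agent.Y254.EL (Pt tb tb_meas Sep LF lint_zoom lint_aniso)
open Pool.Agent.Y254 (mult mult_meas)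

variable {d : ℕ}

theorem dir_sep {v w : Vec d} (hv : ‖v‖ ≤ 1) (hw : ‖w‖ ≤ 1) : ‖v - w‖ ≤ 2 * ‖dir v - dir w‖ := by
  set l : ℝ := √(1 + ‖v‖ ^ 2) with hl
  set l' : ℝ := √(1 + ‖w‖ ^ 2) with hl'
  have hl0 : 0 < l := Real.sqrt_pos.mpr (by positivity)
  have hl0' : 0 < l' := Real.sqrt_pos.mpr (by positivity)
  have hl2 : l ^ 2 ≤ 2 := by
    rw [hl, Real.sq_sqrt (by positivity)]
    nlinarith [norm_nonneg v]
  have e1 : dir v - dir w = WithLp.toLp 2 (l⁻¹ • v - l'⁻¹ • w, l⁻¹ - l'⁻¹) := by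
    unfold dir
    rw [← WithLp.toLp_smul, ← WithLp.toLp_smul, ← WithLp.toLp_sub]
    congr 1
    ext1
    · rfl
    · simp [hl, hl']
  set x : ℝ := ‖l⁻¹ • v - l'⁻¹ • w‖ with hx
  set y : ℝ := |l⁻¹ - l'⁻¹| with hy
  set D : ℝ := ‖dir v - dir w‖ with hD
  have hD2 : D ^ 2 = x ^ 2 + y ^ 2 := by
    rw [hD, e1, WithLp.prod_norm_sq_eq_of_L2]
    show ‖l⁻¹ • v - l'⁻¹ • w‖ ^ 2 + ‖l⁻¹ - l'⁻¹‖ ^ 2 = _
    rw [hx, hy, Real.norm_eq_abs]
  have e2 : v - w = l • ((l⁻¹ • v - l'⁻¹ • w) + (l'⁻¹ - l⁻¹) • w) := by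
    rw [sub_smul]
    have : l⁻¹ • v - l'⁻¹ • w + (l'⁻¹ • w - l⁻¹ • w) = l⁻¹ • (v - w) := by
      rw [smul_sub]; abel
    rw [this, smul_smul, mul_inv_cancel₀ hl0.ne', one_smul]
  have h1 : ‖v - w‖ ≤ l * (x + y) := by
    rw [e2, norm_smul, Real.norm_eq_abs, abs_of_pos hl0]
    gcongr
    refine (norm_add_le _ _).trans ?_
    gcongr
    rw [norm_smul, Real.norm_eq_abs, abs_sub_comm]
    calc |l⁻¹ - l'⁻¹| * ‖w‖ ≤ |l⁻¹ - l'⁻¹| * 1 := by gcongr
      _ = y := by rw [mul_one]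
  have hx0 : 0 ≤ x := norm_nonneg _
  have hy0 : 0 ≤ y := abs_nonneg _
  have hD0 : 0 ≤ D := norm_nonneg _
  apply le_of_sq_le_sq _ (by positivity)
  calc ‖v - w‖ ^ 2 ≤ (l * (x + y)) ^ 2 := pow_le_pow_left₀ (norm_nonneg _) h1 2
    _ = l ^ 2 * (x + y) ^ 2 := by ring
    _ ≤ 2 * (x + y) ^ 2 := by gcongr
    _ ≤ (2 * D) ^ 2 := by nlinarith [sq_nonneg (x - y)]

theorem norm_toLp_le (y : Fin d → ℝ) {M : ℝ} (hM : 0 ≤ M) (h : ∀ k, |y k| ≤ M) :
    ‖(WithLp.toLp 2 y : Vec d)‖ ≤ d * M := by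
  have hd0 : (0 : ℝ) ≤ d := Nat.cast_nonneg d
  apply le_of_sq_le_sq _ (by positivity)
  rw [EuclideanSpace.real_norm_sq_eq]
  calc ∑ a, (y a) ^ 2 ≤ ∑ _a : Fin d, M ^ 2 := by
        refine Finset.sum_le_sum fun a _ => ?_
        rw [← sq_abs]
        exact pow_le_pow_left₀ (abs_nonneg _) (h a) 2
    _ = d * M ^ 2 := by simp
    _ ≤ (d * M) ^ 2 := by
        rcases Nat.eq_zero_or_pos d with h0 | h0
        · subst h0; simp
        · have : (1 : ℝ) ≤ d := by exact_mod_cast h0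
          nlinarith [mul_nonneg (sub_nonneg.2 this) (mul_nonneg hd0 (sq_nonneg M))]

/-- The tubes of a family of lines: the inequality in integrated form. -/
def NL (A : Vec d → Vec d) (q X : ℝ) : Prop :=
  ∀ δ : ℝ, 0 < δ → δ < 1 → ∀ (ι : Type) [Fintype ι] (v : ι → Vec d), (∀ i, ‖v i‖ ≤ 1) →
    (∀ i j, i ≠ j → δ ≤ ‖dir (v i) - dir (v j)‖) →
    ∫⁻ t : ℝ, ∫⁻ x : Vec d, Fe δ v (fun i => A (v i)) (fun _ => 0) x t ^ q ≤
      ENNReal.ofReal (X * (δ ^ d * (Fintype.card ι : ℝ) ^ (q - 1 / (d : ℝ))))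

theorem Fe_int {ι : Type} [Fintype ι] (δ : ℝ) (v β : ι → Vec d) (s : ι → ℝ) (q : ℝ) :
    ∫⁻ t : ℝ, ∫⁻ x : Vec d, Fe δ v β s x t ^ q =
      ∫⁻ z : Pt d, Fe δ v β s (WithLp.toLp 2 z.2) z.1 ^ q := by
  have hFm : Measurable fun y : Space d => ∑ i,
      (tube δ (dir (v i)) (WithLp.toLp 2 (β i + s i • v i, s i))).indicator (fun _ => (1 : ℝ≥0∞)) y := by
    apply Finset.measurable_sum
    intro i _
    exact measurable_const.indicator (tube_closed _ _ _).measurableSet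
  have hc : Continuous fun z : Pt d => (WithLp.toLp 2 ((WithLp.toLp 2 z.2 : Vec d), z.1) : Space d) := by
    fun_prop
  have hm : Measurable fun z : Pt d => Fe δ v β s (WithLp.toLp 2 z.2) z.1 ^ q :=
    (hFm.comp hc.measurable).pow_const q
  rw [Measure.volume_eq_prod, lintegral_prod _ hm.aemeasurable]
  refine lintegral_congr fun t => ?_
  have hc2 : Continuous fun x : Vec d => (WithLp.toLp 2 (x, t) : Space d) := by fun_prop
  have hm2 : Measurable fun x : Vec d => Fe δ v β s x t ^ q := (hFm.comp hc2.measurable).pow_const q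
  exact ((PiLp.volume_preserving_toLp (Fin d)).lintegral_comp hm2).symm

/-- The main localisation lemma. -/
theorem transfer (hd : 1 ≤ d) {A : Vec d → Vec d} {q X : ℝ} (hq : 0 < q) (hNL : NL A q X)
    {ι : Type} [Fintype ι] {δ₀ R : ℝ} (hδ₀ : 0 < δ₀) (hδ₀1 : δ₀ < 1) (hR : 1 ≤ R) (b : ι → ℝ)
    (P v : ι → Fin d → ℝ) (hv : ∀ i, ‖v i‖ ≤ 1) (hs : Sep δ₀ v) (c : Vec d) {ρ : ℝ} (hρ : 0 < ρ)
    (hρ1 : ρ ≤ 1) (hball : ∀ u : Fin d → ℝ, ‖u‖ ≤ 2 → ‖c + ρ • (WithLp.toLp 2 u : Vec d)‖ ≤ 1)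
    {m : ℕ} (hm : 1 ≤ m) {r : ℝ} (hr : r = 1 / (64 * d * R * m))
    (hrb : ∀ i, r * (|b i| + R) ≤ 1 / 8)
    (hA : ∀ i, ∀ u : Fin d → ℝ, (∀ k, |u k - v i k| ≤ δ₀ / 4) →
      A (c + ρ • (WithLp.toLp 2 u : Vec d)) =
        (r * ρ) • (WithLp.toLp 2 (P i) - b i • ((WithLp.toLp 2 u : Vec d) - WithLp.toLp 2 (v i)))) :
    ∫⁻ z, mult (fun i => tb R (R * δ₀) (b i) (P i) (v i)) z ^ q ≤
      ENNReal.ofReal (X * ((8 * d * R) ^ d * (64 * d * R)) *
        (δ₀ ^ d * (Fintype.card ι : ℝ) ^ (q - 1 / (d : ℝ)))) := by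
  classical
  rcases isEmpty_or_nonempty ι with hemp | hne
  · have h1 : ∀ x, mult (fun i => tb R (R * δ₀) (b i) (P i) (v i)) x ^ q = 0 := by
      intro x
      unfold mult
      rw [Finset.univ_eq_empty, Finset.sum_empty, ENNReal.zero_rpow_of_pos hq]
    simp only [h1, lintegral_zero]
    exact zero_le
  have hd0 : (0 : ℝ) < d := by exact_mod_cast hd
  have hd1 : (1 : ℝ) ≤ d := by exact_mod_cast hd
  have hm0 : (0 : ℝ) < m := by exact_mod_cast hm
  have hm1 : (1 : ℝ) ≤ m := by exact_mod_cast hm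
  have hR0 : 0 < R := by linarith
  have hr0 : 0 < r := by rw [hr]; positivity
  set δ : ℝ := ρ * δ₀ / (8 * m) with hδ
  have hδ0 : 0 < δ := by positivity
  have hδ1 : δ < 1 := by
    rw [hδ, div_lt_one (by positivity)]
    nlinarith
  have hδr : 8 * d * R * (r * ρ) * δ₀ = δ := by
    rw [hδ, hr]
    field_simp
    ring
  set h : ℝ := δ₀ / (4 * m) with hh
  have hh0 : 0 < h := by positivity
  -- the directions
  set w : ι × (Fin d → Fin m) → Fin d → ℝ := fun p k => v p.1 k + h * ((p.2 k : ℕ) : ℝ) with hw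
  set V : ι × (Fin d → Fin m) → Vec d := fun p => c + ρ • (WithLp.toLp 2 (w p) : Vec d) with hV
  have hwv : ∀ p k, |w p k - v p.1 k| ≤ δ₀ / 4 := by
    intro p k
    have h1 : w p k - v p.1 k = h * ((p.2 k : ℕ) : ℝ) := by rw [hw]; ring
    rw [h1, abs_of_nonneg (by positivity)]
    have h2 : ((p.2 k : ℕ) : ℝ) ≤ m := by exact_mod_cast (p.2 k).2.le
    calc h * ((p.2 k : ℕ) : ℝ) ≤ h * m := by gcongr
      _ = δ₀ / 4 := by rw [hh]; field_simp
  have hw2 : ∀ p, ‖w p‖ ≤ 2 := by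
    intro p
    rw [pi_norm_le_iff_of_nonneg (by norm_num)]
    intro k
    have h1 := hwv p k
    have h2 := (norm_le_pi_norm (v p.1) k).trans (hv p.1)
    rw [Real.norm_eq_abs] at h2 ⊢
    have h3 : w p k = (w p k - v p.1 k) + v p.1 k := by ring
    rw [h3]
    refine (abs_add_le _ _).trans ?_
    linarith
  have hV1 : ∀ p, ‖V p‖ ≤ 1 := fun p => hball _ (hw2 p)
  have hwsep : ∀ p p', p ≠ p' → ∃ k, h ≤ |w p k - w p' k| := by
    intro p p' hpp
    by_cases hi : p.1 = p'.1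
    · have hz : p.2 ≠ p'.2 := fun hz => hpp (Prod.ext hi hz)
      obtain ⟨k, hk⟩ : ∃ k, p.2 k ≠ p'.2 k := by
        by_contra hcon
        push Not at hcon
        exact hz (funext hcon)
      refine ⟨k, ?_⟩
      have h1 : w p k - w p' k = h * ((((p.2 k : ℕ) : ℤ) - ((p'.2 k : ℕ) : ℤ) : ℤ) : ℝ) := by
        rw [hw]
        simp only
        rw [hi]
        push_cast
        ring
      rw [h1, abs_mul, abs_of_pos hh0]
      have h2 : (((p.2 k : ℕ) : ℤ) - ((p'.2 k : ℕ) : ℤ)) ≠ 0 := by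
        intro h0
        apply hk
        apply Fin.ext
        omega
      have h3 : (1 : ℝ) ≤ |((((p.2 k : ℕ) : ℤ) - ((p'.2 k : ℕ) : ℤ) : ℤ) : ℝ)| := by
        rw [← Int.cast_abs]
        exact_mod_cast Int.one_le_abs h2
      nlinarith
    · have h1 := hs p.1 p'.1 hi
      obtain ⟨k, hk⟩ : ∃ k, δ₀ ≤ |v p.1 k - v p'.1 k| := by
        have hpos : 0 < ‖v p.1 - v p'.1‖ := by linarith
        obtain ⟨k, hk⟩ := Pool.Agent.Y254.EL.exists_coord hpos
        exact ⟨k, by rw [Pi.sub_apply] at hk; linarith⟩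
      refine ⟨k, ?_⟩
      have h2 := hwv p k
      have h3 := hwv p' k
      have h4 : |v p.1 k - v p'.1 k| ≤ |w p k - v p.1 k| + |w p k - w p' k| + |w p' k - v p'.1 k| := by
        have : v p.1 k - v p'.1 k =
            -(w p k - v p.1 k) + (w p k - w p' k) + (w p' k - v p'.1 k) := by ring
        rw [this]
        refine (abs_add_le _ _).trans ?_
        gcongr
        refine (abs_add_le _ _).trans ?_
        rw [abs_neg]
      have h5 : h ≤ δ₀ / 4 := by
        rw [hh]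
        apply div_le_div_of_nonneg_left hδ₀.le (by norm_num)
        linarith
      linarith
  have hVsep : ∀ p p', p ≠ p' → δ ≤ ‖dir (V p) - dir (V p')‖ := by
    intro p p' hpp
    obtain ⟨k, hk⟩ := hwsep p p' hpp
    have h1 := dir_sep (hV1 p) (hV1 p')
    have h2 : ρ * h ≤ ‖V p - V p'‖ := by
      have h3 := PiLp.norm_apply_le (V p - V p') k
      have h4 : (V p - V p') k = ρ * (w p k - w p' k) := by
        show (c k + ρ * w p k) - (c k + ρ * w p' k) = _
        ring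
      rw [h4, Real.norm_eq_abs, abs_mul, abs_of_pos hρ] at h3
      calc ρ * h ≤ ρ * |w p k - w p' k| := by gcongr
        _ ≤ _ := h3
    have h5 : ρ * h = 2 * δ := by rw [hh, hδ]; field_simp; ring
    linarith
  -- the pointwise inequality
  set An : Pt d → Pt d := fun z => (z.1, ρ⁻¹ • (z.2 - z.1 • (fun k => c k))) with hAn
  set T : ι → Set (Pt d) := fun i => tb R (R * δ₀) (b i) (P i) (v i) with hT
  have hmem : ∀ (z : Pt d) (p : ι × (Fin d → Fin m)), An (r⁻¹ • z) ∈ T p.1 →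
      (WithLp.toLp 2 ((WithLp.toLp 2 z.2 : Vec d), z.1) : Space d) ∈
        tube δ (dir (V p)) (WithLp.toLp 2 (A (V p) + (0 : ℝ) • V p, 0)) := by
    intro z p hz
    rw [tube_eq]
    obtain ⟨hz1, hz2⟩ := hz
    set t' : ℝ := r⁻¹ * z.1 with ht'
    set x' : Fin d → ℝ := (An (r⁻¹ • z)).2 with hx'
    have e0 : (An (r⁻¹ • z)).1 = t' := rfl
    rw [e0] at hz1 hz2
    have hzt : z.1 = r * t' := by rw [ht', ← mul_assoc, mul_inv_cancel₀ hr0.ne', one_mul]
    have hzx : ∀ k, z.2 k = r * ρ * x' k + r * t' * c k := by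
      intro k
      have : x' k = ρ⁻¹ * (r⁻¹ * z.2 k - t' * c k) := rfl
      rw [this]
      field_simp
      ring
    apply Pool.Agent.H803R2.KakFTO.subset_tube hδ0 hδ1 _ (hV1 p)
    · have h1 : |t'| ≤ |b p.1| + R := by
        have : t' = (t' - b p.1) + b p.1 := by ring
        rw [this]
        refine (abs_add_le _ _).trans ?_
        linarith
      have h2 : |z.1| ≤ 1 / 8 := by
        rw [hzt, abs_mul, abs_of_pos hr0]
        exact (mul_le_mul_of_nonneg_left h1 hr0.le).trans (hrb p.1)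
      have h3 := abs_le.1 h2
      constructor <;> linarith [h3.1, h3.2]
    · have hAV := hA p.1 (w p) (hwv p)
      have e1 : (WithLp.toLp 2 z.2 : Vec d) - (A (V p) + z.1 • V p) =
          (r * ρ) • ((WithLp.toLp 2 (x' - P p.1 - t' • v p.1) : Vec d) +
            (b p.1 - t') • (WithLp.toLp 2 (w p - v p.1) : Vec d)) := by
        have hAV' : A (V p) = (r * ρ) • (WithLp.toLp 2 (P p.1) -
            b p.1 • ((WithLp.toLp 2 (w p) : Vec d) - WithLp.toLp 2 (v p.1))) := hAV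
        rw [hAV']
        ext k
        show z.2 k - ((r * ρ) * (P p.1 k - b p.1 * (w p k - v p.1 k)) + z.1 * (c k + ρ * w p k)) =
          (r * ρ) * ((x' k - P p.1 k - t' * v p.1 k) + (b p.1 - t') * (w p k - v p.1 k))
        rw [hzx, hzt]
        ring
      rw [e1, norm_smul, Real.norm_eq_abs, abs_of_pos (by positivity)]
      have h1 : ‖(WithLp.toLp 2 (x' - P p.1 - t' • v p.1) : Vec d)‖ ≤ d * (R * δ₀) := by
        apply norm_toLp_le _ (by positivity)
        intro k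
        have := (norm_le_pi_norm _ k).trans hz2
        rwa [Real.norm_eq_abs] at this
      have h2 : ‖(b p.1 - t') • (WithLp.toLp 2 (w p - v p.1) : Vec d)‖ ≤ R * (d * (δ₀ / 4)) := by
        rw [norm_smul, Real.norm_eq_abs, abs_sub_comm]
        exact mul_le_mul hz1 (norm_toLp_le _ (by positivity) (fun k => hwv p k)) (norm_nonneg _)
          hR0.le
      calc r * ρ * ‖(WithLp.toLp 2 (x' - P p.1 - t' • v p.1) : Vec d) +
            (b p.1 - t') • (WithLp.toLp 2 (w p - v p.1) : Vec d)‖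
          ≤ r * ρ * (d * (R * δ₀) + R * (d * (δ₀ / 4))) := by
            gcongr
            exact (norm_add_le _ _).trans (add_le_add h1 h2)
        _ ≤ δ / 4 := by
            rw [← hδr]
            have : 0 < r * ρ * (d * (R * δ₀)) := by positivity
            nlinarith
  have hpt : ∀ z : Pt d, ((m : ℝ≥0∞) ^ d) * mult T (An (r⁻¹ • z)) ≤
      Fe δ V (fun p => A (V p)) (fun _ => 0) (WithLp.toLp 2 z.2) z.1 := by
    intro z
    unfold Fe mult
    rw [Fintype.sum_prod_type, Finset.mul_sum]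
    refine Finset.sum_le_sum fun i _ => ?_
    by_cases hi : An (r⁻¹ • z) ∈ T i
    · rw [indicator_of_mem hi, Pi.one_apply, mul_one]
      calc (m : ℝ≥0∞) ^ d = ∑ _y : Fin d → Fin m, (1 : ℝ≥0∞) := by
            rw [Finset.sum_const, Finset.card_univ, Fintype.card_fun, Fintype.card_fin,
              Fintype.card_fin, nsmul_eq_mul, mul_one]
            push_cast
            rfl
        _ ≤ _ := by
            refine Finset.sum_le_sum fun y _ => ?_
            rw [indicator_of_mem (hmem z (i, y) hi)]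
    · rw [indicator_of_notMem hi, mul_zero]
      exact zero_le
  -- integration
  have hTm : ∀ i, MeasurableSet (T i) := fun i => tb_meas _ _ _ _ _
  have hmm : Measurable (fun z => mult T z ^ q) := (mult_meas hTm).pow_const q
  have hint1 : ∫⁻ z : Pt d, mult T (An (r⁻¹ • z)) ^ q =
      ENNReal.ofReal (r ^ (d + 1)) * (ENNReal.ofReal (ρ ^ d) * ∫⁻ z, mult T z ^ q) := by
    have hAnm : Measurable An := by
      rw [hAn]
      fun_prop
    have hsm : Measurable fun z : Pt d => r⁻¹ • z := measurable_const_smul _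
    have h1 := lint_zoom hr0 (0 : Pt d) (f := fun z => mult T (An (r⁻¹ • z)) ^ q)
      (hmm.comp (hAnm.comp hsm))
    rw [h1]
    congr 1
    have h2 : ∀ z : Pt d, mult T (An (r⁻¹ • ((0 : Pt d) + r • z))) ^ q =
        (fun y => mult T y ^ q) (z.1, ρ⁻¹ • (z.2 - z.1 • (fun k => c k))) := by
      intro z
      rw [zero_add, smul_smul, inv_mul_cancel₀ hr0.ne', one_smul]
    simp only [h2]
    exact lint_aniso hρ (fun k => c k) hmm
  have hkey := hNL δ hδ0 hδ1 (ι × (Fin d → Fin m)) V hV1 hVsep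
  rw [Fe_int] at hkey
  have hlow : ENNReal.ofReal (((m : ℝ) ^ d) ^ q * (r ^ (d + 1) * ρ ^ d)) * ∫⁻ z, mult T z ^ q ≤
      ENNReal.ofReal (X * (δ ^ d * (Fintype.card (ι × (Fin d → Fin m)) : ℝ) ^ (q - 1 / (d : ℝ)))) := by
    refine le_trans (le_of_eq ?_) ((lintegral_mono fun z =>
      ENNReal.rpow_le_rpow (hpt z) hq.le).trans hkey)
    simp only [ENNReal.mul_rpow_of_nonneg _ _ hq.le]
    rw [lintegral_const_mul' _ _ (by
      apply ENNReal.rpow_ne_top_of_nonneg hq.le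
      exact ENNReal.pow_ne_top (ENNReal.natCast_ne_top m)), hint1]
    rw [ENNReal.ofReal_mul (by positivity), ENNReal.ofReal_mul (by positivity)]
    have e3 : ENNReal.ofReal (((m : ℝ) ^ d) ^ q) = ((m : ℝ≥0∞) ^ d) ^ q := by
      rw [← ENNReal.ofReal_rpow_of_nonneg (by positivity) hq.le, ENNReal.ofReal_pow hm0.le,
        ENNReal.ofReal_natCast]
    rw [e3]
    ring
  set N : ℝ := (Fintype.card ι : ℝ) with hN
  have hN0 : 0 < N := by
    have := Fintype.card_pos (α := ι)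
    rw [hN]
    exact_mod_cast this
  have hcard : (Fintype.card (ι × (Fin d → Fin m)) : ℝ) = N * (m : ℝ) ^ d := by
    rw [Fintype.card_prod, Fintype.card_fun, Fintype.card_fin, Fintype.card_fin]
    push_cast
    rfl
  have harith : X * (δ ^ d * (N * (m : ℝ) ^ d) ^ (q - 1 / (d : ℝ))) =
      ((m : ℝ) ^ d) ^ q * (r ^ (d + 1) * ρ ^ d) * (X * ((8 * d * R) ^ d * (64 * d * R)) *
        (δ₀ ^ d * N ^ (q - 1 / (d : ℝ)))) := by
    have e1 : ((m : ℝ) ^ d) ^ (q - 1 / (d : ℝ)) = ((m : ℝ) ^ d) ^ q * (m : ℝ)⁻¹ := by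
      rw [Real.rpow_sub (by positivity), div_eq_mul_inv]
      congr 2
      rw [← Real.rpow_natCast, ← Real.rpow_mul hm0.le, mul_one_div, div_self hd0.ne', Real.rpow_one]
    have e2 : δ ^ d = (8 * d * R) ^ d * (r ^ d * ρ ^ d) * δ₀ ^ d := by
      rw [← hδr]
      ring
    have e3 : (m : ℝ)⁻¹ = r * (64 * d * R) := by
      rw [hr]
      field_simp
    rw [Real.mul_rpow hN0.le (by positivity), e1, e2, e3, pow_succ]
    ring
  rw [hcard, harith] at hlow
  have ha0 : 0 < ((m : ℝ) ^ d) ^ q * (r ^ (d + 1) * ρ ^ d) := by positivity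
  generalize ((m : ℝ) ^ d) ^ q * (r ^ (d + 1) * ρ ^ d) = a0 at hlow ha0
  rw [ENNReal.ofReal_mul ha0.le] at hlow
  have hG0 : ENNReal.ofReal a0 ≠ 0 := by
    rw [ne_eq, ENNReal.ofReal_eq_zero, not_le]
    exact ha0
  exact (ENNReal.mul_le_mul_iff_right hG0 ENNReal.ofReal_ne_top).1 hlow

end Pool.Agent.L0h24.Uni
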